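import Pool.Agent.Lib.MP_1a91b9_ntT.D6.Co3

/-!
# D6 interface: the partial `L`-series at a prime number `q`

`d6_gen` is the general form: an arbitrary modulus `𝔪` prime to `q` such that the units congruent
to `1` modulo `𝔪` have relative norm `1` and are torsion free, an arbitrary smoothing residue `ε`
and an arbitrary normalisation `κ` of the values of `E1` at the division points prime to `q`.
`d6_main` is the case `𝔪 ≤ (3)`, `ε = om`, `κ = Om`.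
-/

set_option autoImplicit false

namespace Pool.Agent.Lib.MP_1a91b9_ntT.Ell

open NumberField

universe u

variable {F : Type u} [Field F] [NumberField F] [Algebra K F]

/-- The partial `L`-series of a residue class has an entire continuation, whose value at `1`,
divided by `κ ^ [F : K]`, is `q`-integral. -/
theorem d6_gen {q : ℕ} (hq : q.Prime) (ε : 𝓞 K) (hε : IsCoprime ε (q : 𝓞 K))
    (hε1 : IsCoprime (ε ^ Module.finrank K F - 1) (q : 𝓞 K))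
    (hU : UQ q F) (𝔟 𝔪 : Ideal (𝓞 F)) (hb : 𝔟 ≠ ⊥)
    (hbq : IsCoprime 𝔟 (Ideal.span {(q : 𝓞 F)})) (hm : 𝔪 ≠ ⊥)
    (hmq : IsCoprime 𝔪 (Ideal.span {(q : 𝓞 F)}))
    (hu : ∀ u : (𝓞 F)ˣ, (u : 𝓞 F) - 1 ∈ 𝔪 → Algebra.norm K ((u : 𝓞 F) : F) = 1)
    (htor : ∀ u : (𝓞 F)ˣ, (u : 𝓞 F) - 1 ∈ 𝔪 → ∀ k : ℕ, 0 < k → u ^ k = 1 → u = 1)
    (t : 𝓞 F) (ht : t ∈ 𝔟) (ht' : t ∉ 𝔪 * 𝔟) :
    ∃ g : ℂ → ℂ, Differentiable ℂ g ∧
      (∀ X : Set F, IsRepsU 𝔪 (cls 𝔟 𝔪 t) X →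
        ∀ s : ℂ, 2 < s.re → HasSum (fun z : X => term s (z : F)) (g s)) ∧
      ∀ A : ValuationSubring ℂ, Pl q A → ∀ κ : ℂ,
        (∀ k : ℕ, k.Coprime q → ∀ z : ℂ, (∃ l : ℤ × ℤ, (k : ℂ) * z = lp l) → E1 z / κ ∈ A) →
        g 1 / κ ^ (Module.finrank K F) ∈ A := by
  obtain ⟨f, hf, hfq⟩ : ∃ f : ℕ, 3 ≤ f ∧ f.Coprime q := by
    by_cases h : q = 3
    · exact ⟨4, by norm_num, by rw [h]; norm_num⟩
    · exact ⟨3, le_refl _, (Nat.coprime_primes Nat.prime_three hq).2 (Ne.symm h)⟩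
  have hex := nf_exists (F := F)
  have hfin := nfa_finite (F := F)
  have hfr : Module.finrank K F ≠ 0 := (Module.finrank_pos (R := K) (M := F)).ne'
  obtain ⟨m, hm'⟩ : ∃ m, Module.finrank K F = m + 1 := Nat.exists_eq_succ_of_ne_zero hfr
  rw [hm'] at hex
  obtain ⟨σ, hσ⟩ := hex
  obtain ⟨g, hg, hgs⟩ := co_entire hq f hf hfq ε hε hε1 σ hσ 𝔟 𝔪 hb hm hmq hu htor t ht ht'
  refine ⟨g, hg, hgs, fun A hA κ hE => ?_⟩
  rw [hm']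
  exact co_val hq f hf hfq ε hε hε1 σ hσ hU 𝔟 𝔪 hb hbq hm hmq hu htor t ht ht' g hg hgs A hA κ hE

/-- The partial `L`-series of a residue class has an entire continuation, whose value at `1`,
divided by `Om ^ [F : K]`, is `q`-integral. -/
theorem d6_main {q : ℕ} (hq : q.Prime) (hq3 : q ≠ 3) (hn : ¬ 3 ∣ Module.finrank K F)
    (hU : UQ q F) (𝔟 𝔪 : Ideal (𝓞 F)) (hb : 𝔟 ≠ ⊥)
    (hbq : IsCoprime 𝔟 (Ideal.span {(q : 𝓞 F)})) (hm : 𝔪 ≠ ⊥)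
    (hmq : IsCoprime 𝔪 (Ideal.span {(q : 𝓞 F)})) (h3 : 𝔪 ≤ Ideal.span {3})
    (t : 𝓞 F) (ht : t ∈ 𝔟) (ht' : t ∉ 𝔪 * 𝔟) :
    ∃ g : ℂ → ℂ, Differentiable ℂ g ∧
      (∀ X : Set F, IsRepsU 𝔪 (cls 𝔟 𝔪 t) X →
        ∀ s : ℂ, 2 < s.re → HasSum (fun z : X => term s (z : F)) (g s)) ∧
      ∀ A : ValuationSubring ℂ, Pl q A → g 1 / Om ^ (Module.finrank K F) ∈ A := by
  have hom : IsCoprime omO (q : 𝓞 K) := by
    have h := (kq_om hq hq3 1 (by norm_num)).1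
    rwa [pow_one] at h
  obtain ⟨g, hg, hgs, hgv⟩ := d6_gen hq omO hom (kq_om hq hq3 _ hn).2 hU 𝔟 𝔪 hb hbq hm hmq
    (fun u hu => un_norm 𝔪 h3 u hu) (fun u hu k hk h => un_tors 𝔪 h3 u hu k hk h) t ht ht'
  exact ⟨g, hg, hgs, fun A hA => hgv A hA Om fun k hk z hz => d3_mem hq A hA k hk z hz⟩

end Pool.Agent.Lib.MP_1a91b9_ntT.Ell
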