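import Pool.Agent.Lib.MP_1a91b9_ntT.D6.Du
import Pool.Agent.Lib.MP_1a91b9_ntT.S6.Ar1

/-!
# D6, file Ar: reduction at the primes above `q`

`QF q e x`: `x` is the product of `e` primes dividing `q` and of an element coprime to `q`.
-/

set_option autoImplicit false

namespace Pool.Agent.Lib.MP_1a91b9_ntT.Ell

open NumberField

universe u

/-- `x` is the product of `e` primes dividing `q` and of an element coprime to `q`. -/
inductive QF (q : ℕ) : ℕ → 𝓞 K → Prop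
  | zero (x : 𝓞 K) (h : IsCoprime x (q : 𝓞 K)) : QF q 0 x
  | succ (e : ℕ) (p x : 𝓞 K) (hp : Prime p) (hd : p ∣ (q : 𝓞 K)) (h : QF q e x) :
      QF q (e + 1) (p * x)

theorem qf_mul {q e : ℕ} {x c : 𝓞 K} (h : QF q e x) (hc : IsCoprime c (q : 𝓞 K)) :
    QF q e (c * x) := by
  induction h with
  | zero x h => exact QF.zero _ (hc.mul_left h)
  | succ e p x hp hd h ih =>
    have e1 : c * (p * x) = p * (c * x) := by ring
    rw [e1]
    exact QF.succ e p _ hp hd ih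

theorem qf_exists (q : ℕ) (x : 𝓞 K) (hx : x ≠ 0) : ∃ e, QF q e x := by
  induction x using WellFounded.induction (IsWellFounded.wf (r := DvdNotUnit (α := 𝓞 K))) with
  | _ x ih =>
  by_cases hc : IsCoprime x (q : 𝓞 K)
  · exact ⟨0, QF.zero x hc⟩
  · have h1 : ∃ p : 𝓞 K, Prime p ∧ p ∣ x ∧ p ∣ (q : 𝓞 K) := by
      by_contra hcon
      push Not at hcon
      exact hc (isCoprime_of_prime_dvd (fun h => hx h.1) hcon)
    obtain ⟨p, hp, ⟨y, rfl⟩, hd⟩ := h1
    have hy : y ≠ 0 := right_ne_zero_of_mul hx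
    obtain ⟨e, he⟩ := ih y ⟨hy, p, hp.not_isUnit, mul_comm _ _⟩ hy
    exact ⟨e + 1, QF.succ e p y hp hd he⟩

theorem q_ne {q : ℕ} (hq : q.Prime) : (q : 𝓞 K) ≠ 0 := Nat.cast_ne_zero.2 hq.ne_zero

/-- Representatives coprime to `q`. -/
theorem cop_rep {q : ℕ} (hq : q.Prime) {p : 𝓞 K} (hp : Prime p) (c₀ : 𝓞 K) (h : ¬ p ∣ c₀) :
    ∃ c, p ∣ c - c₀ ∧ IsCoprime c (q : 𝓞 K) := by
  have hfin : FiniteMultiplicity p (q : 𝓞 K) :=
    FiniteMultiplicity.of_not_isUnit hp.not_isUnit (q_ne hq)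
  obtain ⟨r, hr, hr2⟩ := hfin.exists_eq_pow_mul_and_not_dvd
  obtain ⟨u, w, huw⟩ := (Prime.coprime_iff_not_dvd hp).2 hr2
  refine ⟨c₀ + p * (u * (1 - c₀)), ⟨u * (1 - c₀), by ring⟩, ?_⟩
  have h1 : IsCoprime (c₀ + p * (u * (1 - c₀))) p := by
    have h2 : IsCoprime c₀ p := ((Prime.coprime_iff_not_dvd hp).2 h).symm
    exact h2.add_mul_left_left _
  have h2 : IsCoprime (c₀ + p * (u * (1 - c₀))) r := by
    refine ⟨1, w * (1 - c₀), ?_⟩
    linear_combination (1 - c₀) * huw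
  rw [hr]
  exact (h1.pow_right).mul_right h2

theorem not_dvd_of_cop {q : ℕ} {p a : 𝓞 K} (hp : Prime p) (hd : p ∣ (q : 𝓞 K))
    (ha : IsCoprime a (q : 𝓞 K)) : ¬ p ∣ a := fun h =>
  hp.not_isUnit (ha.isUnit_of_dvd' h hd)

theorem ar_dep {q : ℕ} (hq : q.Prime) {p : 𝓞 K} (hp : Prime p) {n : ℕ}
    (M : Matrix (Fin n) (Fin n) (𝓞 K)) (h : p ∣ M.det) :
    ∃ c : Fin n → 𝓞 K, (∃ i, IsCoprime (c i) (q : 𝓞 K)) ∧
      (∀ i, c i = 0 ∨ IsCoprime (c i) (q : 𝓞 K)) ∧ ∀ j, p ∣ ∑ i, c i * M i j := by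
  classical
  have hpI : (Ideal.span {p}).IsPrime := (Ideal.span_singleton_prime hp.ne_zero).2 hp
  have : IsDomain (𝓞 K ⧸ Ideal.span {p}) := Ideal.Quotient.isDomain _
  set φ := Ideal.Quotient.mk (Ideal.span {p}) with hφ
  have hdet : (φ.mapMatrix M).det = 0 := by
    rw [← RingHom.map_det, hφ, Ideal.Quotient.eq_zero_iff_mem, Ideal.mem_span_singleton]
    exact h
  obtain ⟨v, hv0, hv⟩ := Matrix.exists_vecMul_eq_zero_iff.mpr hdet
  choose c₀ hc₀ using fun i => Ideal.Quotient.mk_surjective (v i)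
  have hdvd : ∀ x : 𝓞 K, p ∣ x ↔ φ x = 0 := by
    intro x
    rw [hφ, Ideal.Quotient.eq_zero_iff_mem, Ideal.mem_span_singleton]
  have hc₁ : ∀ i, ∃ c : 𝓞 K, φ c = v i ∧ (v i = 0 → c = 0) ∧
      (v i ≠ 0 → IsCoprime c (q : 𝓞 K)) := by
    intro i
    by_cases h0 : v i = 0
    · exact ⟨0, by rw [map_zero, h0], fun _ => rfl, fun h => absurd h0 h⟩
    · have h1 : ¬ p ∣ c₀ i := by
        rw [hdvd]
        have := hc₀ i
        rw [← hφ] at this
        rw [this]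
        exact h0
      obtain ⟨c, hc, hcq⟩ := cop_rep hq hp (c₀ i) h1
      refine ⟨c, ?_, fun h => absurd h h0, fun _ => hcq⟩
      rw [hdvd, map_sub, sub_eq_zero] at hc
      rw [hc]
      exact hc₀ i
  choose c hc1 hc2 hc3 using hc₁
  refine ⟨c, ?_, ?_, ?_⟩
  · by_contra hcon
    push Not at hcon
    apply hv0
    funext i
    rw [Pi.zero_apply]
    by_contra h0
    exact hcon i (hc3 i h0)
  · intro i
    by_cases h0 : v i = 0
    · exact Or.inl (hc2 i h0)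
    · exact Or.inr (hc3 i h0)
  · intro j
    rw [hdvd, map_sum]
    have h1 := congrFun hv j
    rw [Pi.zero_apply] at h1
    refine Eq.trans ?_ h1
    rw [Matrix.vecMul, dotProduct]
    refine Finset.sum_congr rfl fun i _ => ?_
    rw [map_mul]
    exact congrArg (· * φ (M i j)) (hc1 i)

variable {F : Type u} [Field F] [NumberField F] [Algebra K F] {q : ℕ}

/-- Multiplication by the norm of the smoothing element. -/
theorem bmul_mem (𝔟 : Ideal (𝓞 F)) {R : ℕ} (β' : 𝓞 F) (b' : 𝓞 K)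
    (hβ : Smooth q R β' b') (v : F) (hv : (β' : F) * v ∈ DL 𝔟) : (b' : K) • v ∈ DL 𝔟 := by
  obtain ⟨w, hw⟩ := nf_dvd β' b' hβ.nrm
  have h1 : algebraMap K F (b' : K) = (w : F) * (β' : F) := by
    have h2 := congrArg (algebraMap (𝓞 F) F) hw
    rw [map_mul, mul_comm] at h2
    exact h2
  rw [Algebra.smul_def, h1, mul_assoc]
  exact dl_smul 𝔟 w hv

/-- Integral coordinates of the multiples of generators. -/
theorem ar1_coord {m : ℕ} (𝔟 : Ideal (𝓞 F)) {R : ℕ} (β' : 𝓞 F) (b' : 𝓞 K)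
    (hβ : Smooth q R β' b') (bb : Module.Basis (Fin (m + 1)) K F)
    (hbb : ∀ v : F, v ∈ DL 𝔟 ↔ ∀ i, ∃ a : 𝓞 K, bb.repr v i = a) (v : F)
    (hv : (β' : F) * v ∈ DL 𝔟) : ∀ j, ∃ a : 𝓞 K, (a : K) = (b' : K) * bb.repr v j := by
  have h3 := bmul_mem 𝔟 β' b' hβ v hv
  intro j
  obtain ⟨a, ha⟩ := (hbb _).mp h3 j
  refine ⟨a, ?_⟩
  rw [← ha, map_smul, Finsupp.smul_apply, smul_eq_mul]

theorem dl_smulK (𝔟 : Ideal (𝓞 F)) (x : 𝓞 K) {z : F} (hz : z ∈ DL 𝔟) : (x : K) • z ∈ DL 𝔟 := by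
  have h := dl_smul 𝔟 (algebraMap (𝓞 K) (𝓞 F) x) hz
  rw [Algebra.smul_def]
  exact h

/-- The element `w₀ = (1/p) ∑ c_i v_i`. -/
theorem ar1_step (hq : q ≠ 1) {m : ℕ} (𝔟 : Ideal (𝓞 F)) {R : ℕ} (β' : 𝓞 F) (b' : 𝓞 K)
    (hβ : Smooth q R β' b') (bb : Module.Basis (Fin (m + 1)) K F)
    (hbb : ∀ v : F, v ∈ DL 𝔟 ↔ ∀ i, ∃ a : 𝓞 K, bb.repr v i = a) (v : Fin (m + 1) → F)
    (hv : ∀ i, Gen 𝔟 β' (v i)) (M : Fin (m + 1) → Fin (m + 1) → 𝓞 K)
    (hM : ∀ i j, ((M i j : 𝓞 K) : K) = (b' : K) * bb.repr (v i) j) (c : Fin (m + 1) → 𝓞 K)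
    {p : 𝓞 K} (hp : Prime p) (hd : p ∣ (q : 𝓞 K))
    (hc : ∀ j, p ∣ ∑ i, c i * Matrix.of M i j) (i₁ : Fin (m + 1)) :
    ∃ y : 𝓞 K, ∃ w' ∈ DL 𝔟, (p : K)⁻¹ • ∑ i, (c i : K) • v i =
      algebraMap K F (y : K) * v i₁ + w' := by
  have hβ0 : β' ≠ 0 := smooth_ne hq hβ
  have hpK : (p : K) ≠ 0 := fun h => hp.ne_zero (ar1_inj _ _ (by rw [h, ar1_zero]))
  set w₀ : F := (p : K)⁻¹ • ∑ i, (c i : K) • v i with hw₀
  have h2w : (p : K) • w₀ = ∑ i, (c i : K) • v i := by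
    rw [hw₀, smul_smul, mul_inv_cancel₀ hpK, one_smul]
  -- `b' w₀ ∈ DL`
  have hbw : (b' : K) • w₀ ∈ DL 𝔟 := by
    rw [hbb]
    intro j
    obtain ⟨r, hr⟩ := hc j
    refine ⟨r, ?_⟩
    have h3 : ((∑ i, c i * Matrix.of M i j : 𝓞 K) : K) = (p : K) * (r : K) := by
      rw [hr, ar1_mul]
    rw [ar1_sum] at h3
    rw [hw₀, map_smul, map_smul, map_sum, Finsupp.smul_apply, Finsupp.smul_apply,
      Finsupp.finsetSum_apply, smul_eq_mul, smul_eq_mul]
    have h4 : (b' : K) * ((p : K)⁻¹ * ∑ i, (bb.repr ((c i : K) • v i)) j) =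
        (p : K)⁻¹ * ∑ i, ((c i * Matrix.of M i j : 𝓞 K) : K) := by
      rw [mul_left_comm, Finset.mul_sum]
      congr 1
      refine Finset.sum_congr rfl fun i _ => ?_
      rw [map_smul, Finsupp.smul_apply, smul_eq_mul, ar1_mul]
      have := hM i j
      have h5 : ((Matrix.of M i j : 𝓞 K) : K) = (b' : K) * bb.repr (v i) j := this
      rw [h5]
      ring
    rw [h4, h3, inv_mul_cancel_left₀ hpK]
  have h0mem : (0 : F) ∈ DL 𝔟 := by
    have := dl_smul 𝔟 0 hbw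
    rwa [ar1_zero, zero_mul] at this
  -- `p β' w₀ ∈ DL`
  have h2β : (p : K) • ((β' : F) * w₀) ∈ DL 𝔟 := by
    have e1 : (p : K) • ((β' : F) * w₀) = ∑ i, (c i : K) • ((β' : F) * v i) := by
      rw [← mul_smul_comm, h2w, Finset.mul_sum]
      refine Finset.sum_congr rfl fun i _ => ?_
      rw [mul_smul_comm]
    rw [e1]
    exact Finset.sum_induction _ (fun z => z ∈ DL 𝔟) (fun x y hx hy => dl_add 𝔟 hx hy) h0mem
      fun i _ => dl_smulK 𝔟 _ (hv i).1
  have hbβ : (b' : K) • ((β' : F) * w₀) ∈ DL 𝔟 := by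
    rw [← mul_smul_comm]
    exact dl_smul 𝔟 β' hbw
  have hβw : (β' : F) * w₀ ∈ DL 𝔟 := by
    obtain ⟨x, y, hxy⟩ := hβ.c0.of_isCoprime_of_dvd_right hd
    have h5 := dl_add 𝔟 (dl_smulK 𝔟 x hbβ) (dl_smulK 𝔟 y h2β)
    have h6 : (x : K) * (b' : K) + (y : K) * (p : K) = 1 := by
      rw [← ar1_mul, ← ar1_mul, ← ar1_add, hxy, ar1_one]
    rw [smul_smul, smul_smul, ← add_smul, h6, one_smul] at h5
    exact h5
  exact gen_rep 𝔟 β' hβ0 (v i₁) w₀ (hv i₁) hβw

theorem ar_main (hq : q.Prime) {m : ℕ} (𝔟 : Ideal (𝓞 F)) {R : ℕ} (β' : 𝓞 F) (b' : 𝓞 K)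
    (hβ : Smooth q R β' b') (bb : Module.Basis (Fin (m + 1)) K F)
    (hbb : ∀ v : F, v ∈ DL 𝔟 ↔ ∀ i, ∃ a : 𝓞 K, bb.repr v i = a) :
    ∀ (e : ℕ) (v : Fin (m + 1) → F), (∀ i, Gen 𝔟 β' (v i)) →
      (∃ (k : ℕ) (x : 𝓞 K), k.Coprime q ∧ QF q e x ∧ (k : K) * bb.det v = (x : K)) →
      ∃ S : Finset F, (∀ w ∈ S, Gen 𝔟 β' w) ∧ (∀ i, v i ∈ S) ∧
        ∀ (I : (Fin (m + 1) → F) → ℂ) (M : AddSubgroup ℂ),
          (∀ w : Fin (m + 2) → F, (∀ i, w i ∈ S) →
            ∑ i : Fin (m + 2), (-1) ^ (i : ℕ) * I (fun j => w (i.succAbove j)) = 0) →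
          (∀ w : Fin (m + 1) → F, (∀ i, w i ∈ S) → ¬ LinearIndependent K w → I w = 0) →
          (∀ w : Fin (m + 1) → F, (∀ i, w i ∈ S) → LinearIndependent K w → Unimod q bb w →
            I w ∈ M) → I v ∈ M := by
  classical
  intro e
  induction e with
  | zero =>
    intro v hv hdet
    obtain ⟨k, x, hk, hx, hkx⟩ := hdet
    have hxq : IsCoprime x (q : 𝓞 K) := by
      cases hx with
      | zero x h => exact h
    refine ⟨Finset.univ.image v, ?_, fun i => Finset.mem_image_of_mem v (Finset.mem_univ i), ?_⟩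
    · intro w hw
      obtain ⟨i, _, rfl⟩ := Finset.mem_image.mp hw
      exact hv i
    · intro I M _ _ h3
      refine h3 v (fun i => Finset.mem_image_of_mem v (Finset.mem_univ i)) ?_ ⟨k, x, hk, hxq, hkx⟩
      rw [ar1_det_ne bb]
      intro h0
      rw [h0, mul_zero] at hkx
      refine kq_ne hq.one_lt.ne' hxq (ar1_inj _ _ ?_)
      rw [← hkx, ar1_zero]
  | succ e ih =>
    intro v hv hdet
    obtain ⟨k, x', hk, hx', hkx'⟩ := hdet
    obtain ⟨p, x, hp, hd, hx, rfl⟩ : ∃ p x : 𝓞 K, Prime p ∧ p ∣ (q : 𝓞 K) ∧ QF q e x ∧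
        x' = p * x := by
      cases hx' with
      | succ e p x hp hd h => exact ⟨p, x, hp, hd, h, rfl⟩
    have hpK : (p : K) ≠ 0 := fun h => hp.ne_zero (ar1_inj _ _ (by rw [h, ar1_zero]))
    choose M hM using fun i => ar1_coord 𝔟 β' b' hβ bb hbb (v i) (hv i).1
    have h1 := ar1_detmat bb v b' (Matrix.of M) hM
    have h2 : p ∣ (Matrix.of M).det := by
      have h3 : p ∣ (k : 𝓞 K) * (Matrix.of M).det := by
        refine ⟨b' ^ (m + 1) * x, ?_⟩
        refine ar1_inj _ _ ?_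
        rw [ar1_mul, ar1_mul, ar1_mul, ar1_pow, ar1_nat]
        calc (k : K) * ((Matrix.of M).det : K) = (b' : K) ^ (m + 1) * ((k : K) * bb.det v) := by
              rw [h1]; ring
          _ = _ := by rw [hkx', ar1_mul]; ring
      rcases hp.dvd_or_dvd h3 with h | h
      · exact absurd h (not_dvd_of_cop hp hd (kq_nat hk))
      · exact h
    obtain ⟨c, ⟨i₁, hi₁⟩, hc0, hcM⟩ := ar_dep hq hp (Matrix.of M) h2
    obtain ⟨y, w', hw', hrel⟩ :=
      ar1_step hq.one_lt.ne' 𝔟 β' b' hβ bb hbb v hv M hM c hp hd hcM i₁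
    obtain ⟨s, t, hst⟩ := hβ.c0
    obtain ⟨y₁, hy₁⟩ : ∃ y₁ : 𝓞 K, y₁ = 1 + b' * (s * (y - 1)) := ⟨_, rfl⟩
    have hy₁q : p * (y₁ - y) = (q : 𝓞 K) * (-(p * t * (y - 1))) := by
      rw [hy₁]
      linear_combination (p * (y - 1)) * hst
    set cc : Fin (m + 1) → 𝓞 K := fun i => c i + if i = i₁ then p * (y₁ - y) else 0 with hcc
    have hcc1 : ∀ i, cc i = 0 ∨ IsCoprime (cc i) (q : 𝓞 K) := by
      intro i
      by_cases hi : i = i₁
      · right
        rw [hcc]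
        simp only [hi, if_true]
        rw [hy₁q]
        exact hi₁.add_mul_left_left _
      · rw [hcc]
        simp only [if_neg hi, add_zero]
        exact hc0 i
    set w : F := v i₁ + ((s * (y - 1) : 𝓞 K) : K) • ((b' : K) • v i₁) + w' with hwdef
    have hGw : Gen 𝔟 β' w := by
      rw [hwdef, add_assoc]
      exact gen_add 𝔟 β' _ _ (hv i₁)
        (dl_add 𝔟 (dl_smulK 𝔟 _ (bmul_mem 𝔟 β' b' hβ _ (hv i₁).1)) hw')
    have hwsum : w = ∑ i, ((p : K)⁻¹ * (cc i : K)) • v i := by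
      have e1 : ∀ i, ((p : K)⁻¹ * (cc i : K)) • v i =
          (p : K)⁻¹ • ((c i : K) • v i) + if i = i₁ then ((y₁ : K) - (y : K)) • v i₁ else 0 := by
        intro i
        rw [hcc]
        by_cases hi : i = i₁
        · simp only [hi, if_true]
          rw [ar1_add, ar1_mul, ar1_sub, mul_add, add_smul, smul_smul]
          congr 2
          rw [← mul_assoc, inv_mul_cancel₀ hpK, one_mul]
        · simp only [if_neg hi, add_zero]
          rw [smul_smul]
      simp only [e1]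
      have e2 : (y₁ : K) = 1 + ((s * (y - 1) : 𝓞 K) : K) * (b' : K) := by
        rw [hy₁, ar1_add, ar1_one, ar1_mul b', mul_comm (b' : K)]
      rw [Finset.sum_add_distrib, ← Finset.smul_sum, Finset.sum_ite_eq' Finset.univ i₁,
        if_pos (Finset.mem_univ i₁), hrel, hwdef, sub_smul, Algebra.smul_def (y : K), e2,
        add_smul, one_smul, smul_smul]
      ring
    set T : Fin (m + 1) → (Fin (m + 1) → F) := fun j =>
      (Fin.cons w (fun i => v (j.succAbove i)) : Fin (m + 1) → F) with hT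
    have hTdet : ∀ j, bb.det (T j) = (-1) ^ (j : ℕ) * ((p : K)⁻¹ * (cc j : K)) * bb.det v := by
      intro j
      rw [hT]
      simp only
      rw [hwsum]
      exact ar_det bb v _ j
    have hTGen : ∀ j i, Gen 𝔟 β' (T j i) := by
      intro j i
      refine Fin.cases ?_ (fun i => ?_) i
      · rw [hT]
        simp only [Fin.cons_zero]
        exact hGw
      · rw [hT]
        simp only [Fin.cons_succ]
        exact hv _
    have hSj : ∀ j, ∃ S : Finset F, (∀ w ∈ S, Gen 𝔟 β' w) ∧ (∀ i, T j i ∈ S) ∧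
        ∀ (I : (Fin (m + 1) → F) → ℂ) (M : AddSubgroup ℂ),
          (∀ w : Fin (m + 2) → F, (∀ i, w i ∈ S) →
            ∑ i : Fin (m + 2), (-1) ^ (i : ℕ) * I (fun j => w (i.succAbove j)) = 0) →
          (∀ w : Fin (m + 1) → F, (∀ i, w i ∈ S) → ¬ LinearIndependent K w → I w = 0) →
          (∀ w : Fin (m + 1) → F, (∀ i, w i ∈ S) → LinearIndependent K w → Unimod q bb w →
            I w ∈ M) → I (T j) ∈ M := by
      intro j
      rcases hcc1 j with h0 | h0
      · refine ⟨Finset.univ.image (T j), ?_,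
          fun i => Finset.mem_image_of_mem _ (Finset.mem_univ i), ?_⟩
        · intro x hx
          obtain ⟨i, _, rfl⟩ := Finset.mem_image.mp hx
          exact hTGen j i
        · intro I M _ h2 _
          rw [h2 (T j) (fun i => Finset.mem_image_of_mem _ (Finset.mem_univ i)) ?_]
          · exact M.zero_mem
          · rw [ar1_det_ne bb, not_not, hTdet, h0, ar1_zero]
            ring
      · refine ih (T j) (hTGen j) ⟨k, ((-1) ^ (j : ℕ) * cc j) * x, hk, qf_mul hx ?_, ?_⟩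
        · rcases neg_one_pow_eq_or (𝓞 K) (j : ℕ) with h4 | h4
          · rwa [h4, one_mul]
          · rw [h4, neg_one_mul]
            exact h0.neg_left
        · rw [hTdet, ar1_mul, ar1_mul, ar1_pow, ar1_neg, ar1_one]
          have e1 : (k : K) * ((-1) ^ (j : ℕ) * ((p : K)⁻¹ * (cc j : K)) * bb.det v) =
              (-1) ^ (j : ℕ) * ((p : K)⁻¹ * (cc j : K)) * ((k : K) * bb.det v) := by ring
          rw [e1, hkx', ar1_mul]
          have e2 : (p : K)⁻¹ * (p : K) = 1 := inv_mul_cancel₀ hpK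
          linear_combination ((-1) ^ (j : ℕ) * (cc j : K) * (x : K)) * e2
    choose S hS1 hS2 hS3 using hSj
    refine ⟨Finset.univ.biUnion S ∪ Finset.univ.image v, ?_, ?_, ?_⟩
    · intro x hx
      rcases Finset.mem_union.mp hx with h | h
      · obtain ⟨j, _, hj⟩ := Finset.mem_biUnion.mp h
        exact hS1 j x hj
      · obtain ⟨i, _, rfl⟩ := Finset.mem_image.mp h
        exact hv i
    · intro i
      exact Finset.mem_union_right _ (Finset.mem_image_of_mem v (Finset.mem_univ i))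
    · intro I M hI1 hI2 hI3
      have hsub : ∀ j, ∀ x ∈ S j, x ∈ Finset.univ.biUnion S ∪ Finset.univ.image v := fun j x hx =>
        Finset.mem_union_left _ (Finset.mem_biUnion.mpr ⟨j, Finset.mem_univ j, hx⟩)
      have hTM : ∀ j, I (T j) ∈ M := fun j =>
        hS3 j I M (fun x hx => hI1 x fun i => hsub j _ (hx i))
          (fun x hx => hI2 x fun i => hsub j _ (hx i))
          (fun x hx => hI3 x fun i => hsub j _ (hx i))
      have hco := hI1 (Fin.cons w v : Fin (m + 2) → F) (by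
        intro i
        refine Fin.cases ?_ (fun i => ?_) i
        · rw [Fin.cons_zero]
          refine hsub 0 _ ?_
          have := hS2 0 0
          rwa [hT] at this
        · rw [Fin.cons_succ]
          exact Finset.mem_union_right _ (Finset.mem_image_of_mem v (Finset.mem_univ i)))
      rw [Fin.sum_univ_succ] at hco
      have hz : (fun j => (Fin.cons w v : Fin (m + 2) → F) ((0 : Fin (m + 2)).succAbove j)) = v := by
        funext j
        rw [Fin.succAbove_zero, Fin.cons_succ]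
      have hs : ∀ i : Fin (m + 1), (fun j => (Fin.cons w v : Fin (m + 2) → F)
          (i.succ.succAbove j)) = T i := by
        intro i
        funext j
        refine Fin.cases ?_ (fun j => ?_) j
        · rw [Fin.succ_succAbove_zero, Fin.cons_zero, hT]
          rfl
        · rw [Fin.succ_succAbove_succ, Fin.cons_succ, hT]
          rfl
      rw [hz] at hco
      simp only [hs, Fin.val_zero, pow_zero, one_mul, Fin.val_succ, pow_succ] at hco
      have hv' : I v = ∑ i : Fin (m + 1), (-1) ^ (i : ℕ) * I (T i) := by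
        have e1 : ∑ i : Fin (m + 1), (-1) ^ (i : ℕ) * (-1 : ℂ) * I (T i) =
            -∑ i : Fin (m + 1), (-1) ^ (i : ℕ) * I (T i) := by
          rw [← Finset.sum_neg_distrib]
          refine Finset.sum_congr rfl fun i _ => ?_
          ring
        rw [e1] at hco
        exact add_neg_eq_zero.mp hco
      rw [hv']
      refine AddSubgroup.sum_mem _ fun i _ => ?_
      rcases neg_one_pow_eq_or ℂ (i : ℕ) with h4 | h4
      · rw [h4, one_mul]
        exact hTM i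
      · rw [h4, neg_one_mul]
        exact M.neg_mem (hTM i)

/-- The exponent exists for independent tuples. -/
theorem ar_exp (hq : q.Prime) {m : ℕ} (𝔟 : Ideal (𝓞 F)) {R : ℕ} (β' : 𝓞 F) (b' : 𝓞 K)
    (hβ : Smooth q R β' b') (bb : Module.Basis (Fin (m + 1)) K F)
    (hbb : ∀ v : F, v ∈ DL 𝔟 ↔ ∀ i, ∃ a : 𝓞 K, bb.repr v i = a) (v : Fin (m + 1) → F)
    (hv : ∀ i, Gen 𝔟 β' (v i)) (hl : LinearIndependent K v) :
    ∃ (e k : ℕ) (x : 𝓞 K), k.Coprime q ∧ QF q e x ∧ (k : K) * bb.det v = (x : K) := by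
  have hdet := (ar1_det_ne bb v).mp hl
  choose M hM using fun i => ar1_coord 𝔟 β' b' hβ bb hbb (v i) (hv i).1
  have h1 := ar1_detmat bb v b' (Matrix.of M) hM
  obtain ⟨c, k', hk', hck, -⟩ := kq_odd b' hβ.c0
  have hk0 : (k' : K) ≠ 0 := by
    have : k' ≠ 0 := by
      rintro rfl
      rw [Nat.coprime_zero_left] at hk'
      exact hq.one_lt.ne' hk'
    exact_mod_cast this
  set y : 𝓞 K := c ^ (m + 1) * (Matrix.of M).det with hy
  have hyK : (y : K) = (k' : K) ^ (m + 1) * bb.det v := by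
    have h2 : (b' : K) * (c : K) = (k' : K) := by
      rw [← ar1_mul, hck, ar1_nat]
    rw [hy, ar1_mul, ar1_pow, h1, ← h2]
    ring
  have hy0 : y ≠ 0 := by
    intro h
    rw [h, ar1_zero] at hyK
    exact mul_ne_zero (pow_ne_zero _ hk0) hdet hyK.symm
  obtain ⟨e, he⟩ := qf_exists q y hy0
  exact ⟨e, k' ^ (m + 1), y, Nat.Coprime.pow_left _ hk', he, by rw [Nat.cast_pow, ← hyK]⟩

end Pool.Agent.Lib.MP_1a91b9_ntT.Ell
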