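import Pool.Agent.Lib.MP_1a91b9_ntT.D6.Du
import Pool.Agent.Lib.MP_1a91b9_ntT.D6.Un
import Pool.Agent.Lib.MP_1a91b9_ntT.S6.De2

/-!
# D6, file De: the smoothed indicator functions are admissible (port of `S6.De2`)
-/

set_option autoImplicit false

namespace Pool.Agent.Lib.MP_1a91b9_ntT.Ell

open NumberField

universe u

variable {F : Type u} [Field F] [NumberField F] [Algebra K F] {q : ℕ}

theorem de2_cop (hq : q.Prime) (n : ℕ) (hn : n ≠ 0) :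
    ∃ m : ℕ, m.Coprime q ∧ ∀ t : ℕ, t.Coprime q → t ∣ n → t ∣ m := by
  obtain ⟨k, m, hm, rfl⟩ := Nat.exists_eq_pow_mul_and_not_dvd hn q hq.one_lt.ne'
  refine ⟨m, ((Nat.Prime.coprime_iff_not_dvd hq).2 hm).symm, fun t ht hd => ?_⟩
  exact (Nat.Coprime.pow_right k ht).dvd_of_dvd_mul_left hd

open Classical in
theorem de2_sum (hq : q.Prime) (𝔟 : Ideal (𝓞 F)) {R : ℕ} {β : 𝓞 F} {b : 𝓞 K} (h : Smooth q R β b)
    (α : 𝓞 F) (hα : α ∈ 𝔟) (hα0 : α ≠ 0)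
    (hR : ∀ t : ℕ, t.Coprime q → t ∣ Ideal.absNorm (Ideal.span {α}) → t ∣ R) :
    ∃ (r : ℕ) (x : Fin r → 𝓞 K), 0 < r ∧ ∀ w ∈ 𝔟,
      ∑ j, ((1 : ℂ) - (‖embK b‖ ^ 2 : ℝ) *
        (if (w : F) + ((algebraMap (𝓞 K) (𝓞 F) (x j) * α : 𝓞 F) : F) ∈ mulI 𝔟 β then 1 else 0)) =
        0 := by
  have hb0 : b ≠ 0 := kq_ne hq.one_lt.ne' h.c0
  obtain ⟨r, x, hr, hr0, hx⟩ := de_fam b hb0
  refine ⟨r, x, hr0, fun w hw => ?_⟩
  obtain ⟨x₀, hx₀⟩ := de_iff hq 𝔟 h α hα hα0 hR w hw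
  obtain ⟨j₀, hj₀, huniq⟩ := hx x₀
  have h1 : ∀ j, ((w : F) + ((algebraMap (𝓞 K) (𝓞 F) (x j) * α : 𝓞 F) : F) ∈ mulI 𝔟 β) ↔ j = j₀ := by
    intro j
    rw [← de2_add, hx₀ (x j)]
    constructor
    · intro h2
      exact huniq j h2
    · intro h2
      rw [h2]
      exact hj₀
  simp only [h1]
  rw [Finset.sum_sub_distrib, ← Finset.mul_sum, Finset.sum_ite_eq' Finset.univ j₀,
    if_pos (Finset.mem_univ _), Finset.sum_const, Finset.card_univ, Fintype.card_fin, ← hr]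
  simp

theorem de2_unit (hq : q ≠ 1) (𝔟 : Ideal (𝓞 F)) (hb : 𝔟 ≠ ⊥) {R' : ℕ} (f : ℕ) (hf : 3 ≤ f)
    (h3 : f ∣ R') (β' : 𝓞 F) (b' : 𝓞 K)
    (hβ' : Smooth q R' β' b') (v : F) (hv : Gen 𝔟 β' v) : v ≠ 0 := by
  intro h0
  have hβ0 : β' ≠ 0 := smooth_ne hq hβ'
  have h1 : ∀ z ∈ 𝔟, (z : F) ∈ mulI 𝔟 β' := by
    intro z hz
    refine gen_ne 𝔟 hb β' hβ0 v hv z hz 0 ?_
    rw [h0, zero_mul, map_zero]
    exact (map_zero (algebraMap (𝓞 K) K)).symm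
  have h2 : Ideal.span {β'} * 𝔟 = 1 * 𝔟 := by
    rw [one_mul]
    apply le_antisymm Ideal.mul_le_right
    intro z hz
    obtain ⟨w, hw, hzw⟩ := h1 z hz
    rw [← de2_mul] at hzw
    rw [de2_inj hzw]
    exact Ideal.mul_mem_mul (Ideal.mem_span_singleton_self β') hw
  have h4 : Ideal.span {β'} = 1 := mul_right_cancel₀ hb h2
  have h5 : IsUnit β' := by
    rw [← Ideal.span_singleton_eq_top, h4, Ideal.one_eq_top]
  obtain ⟨γ, hγ⟩ := h5.exists_right_inv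
  obtain ⟨c, hc⟩ := nf_int γ
  have h6 : b' * c = 1 := by
    apply RingOfIntegers.ext
    change ((b' * c : 𝓞 K) : K) = ((1 : 𝓞 K) : K)
    have h7 : ((b' * c : 𝓞 K) : K) = (b' : K) * (c : K) := map_mul (algebraMap (𝓞 K) K) b' c
    have h8 : ((1 : 𝓞 K) : K) = 1 := map_one (algebraMap (𝓞 K) K)
    have h9 : ((1 : 𝓞 F) : F) = 1 := map_one (algebraMap (𝓞 F) F)
    rw [h7, ← hβ'.nrm, ← hc, ← map_mul, ← de2_mul, hγ, h8, h9, map_one]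
  have h10 : (f : 𝓞 K) ∣ b' - 1 := by
    have h11 := nf_cong f β' 1 b' 1 hβ'.nrm (by
      have h8 : ((1 : 𝓞 K) : K) = 1 := map_one (algebraMap (𝓞 K) K)
      have h9 : ((1 : 𝓞 F) : F) = 1 := map_one (algebraMap (𝓞 F) F)
      rw [h8, h9, map_one]) (by
      refine dvd_trans ?_ hβ'.one
      exact_mod_cast Nat.cast_dvd_cast h3)
    exact_mod_cast h11
  have h12 : b' = 1 := kf_unit' f hf b' (IsUnit.of_mul_eq_one c h6) h10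
  exact kq_ne hq hβ'.c1 (by rw [h12, sub_self])

theorem de2_choice (hq : q.Prime) (𝔟 𝔪 : Ideal (𝓞 F)) (hb : 𝔟 ≠ ⊥) (hm : 𝔪 ≠ ⊥) (β' : 𝓞 F) (hβ : β' ≠ 0)
    (B : Finset F) :
    ∃ n : ℕ, n.Coprime q ∧ ((∃ α : F, α ≠ 0 ∧ ∀ v ∈ B, Algebra.trace K F (v * α) = 0) →
      ∃ α' ∈ 𝔪 * 𝔟, α' ≠ 0 ∧ (∀ v ∈ B, Algebra.trace K F (v * ((β' * α' : 𝓞 F) : F)) = 0) ∧
        ∀ t : ℕ, t.Coprime q → t ∣ Ideal.absNorm (Ideal.span {β' * α'}) → t ∣ n) := by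
  by_cases hex : ∃ α : F, α ≠ 0 ∧ ∀ v ∈ B, Algebra.trace K F (v * α) = 0
  · obtain ⟨α, hα0, hα⟩ := hex
    obtain ⟨N, hN, α', hα', hα'0, he⟩ := de_scale (𝔪 * 𝔟) (mul_ne_zero hm hb) β' hβ α hα0
    have h1 : Ideal.absNorm (Ideal.span {β' * α'}) ≠ 0 := by
      intro h
      rw [Ideal.absNorm_eq_zero_iff, Ideal.span_singleton_eq_bot] at h
      exact mul_ne_zero hβ hα'0 h
    obtain ⟨m, hm1, hm2⟩ := de2_cop hq _ h1
    refine ⟨m, hm1, fun _ => ⟨α', hα', hα'0, ?_, hm2⟩⟩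
    intro v hv
    have h2 : v * ((β' * α' : 𝓞 F) : F) = (N : K) • (v * α) := by
      rw [de2_mul, ← he, Algebra.smul_def, map_natCast]
      ring
    rw [h2, map_smul, hα v hv, smul_zero]
  · exact ⟨1, Nat.coprime_one_left q, fun h => absurd h hex⟩

theorem de2_bdd (c : ℝ) (hc : 0 ≤ c) (x : ℂ) (hx : x = 0 ∨ x = 1 - (c : ℝ) * 1 ∨ x = 1 - (c : ℝ) * 0) :
    ‖x‖ ≤ 1 + c := by
  rcases hx with h | h | h
  · rw [h, norm_zero]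
    linarith
  · rw [h, mul_one]
    refine le_trans (norm_sub_le _ _) ?_
    rw [norm_one, Complex.norm_real, Real.norm_eq_abs, abs_of_nonneg hc]
  · rw [h, mul_zero, sub_zero, norm_one]
    linarith

theorem de_adm (hq : q.Prime) (𝔟 𝔪 : Ideal (𝓞 F)) (hb : 𝔟 ≠ ⊥) (hm : 𝔪 ≠ ⊥) (t : 𝓞 F) (ht : t ∈ 𝔟) {R' : ℕ}
    (f : ℕ) (hf : 3 ≤ f) (h3 : f ∣ R') (β' : 𝓞 F) (b' : 𝓞 K) (hβ' : Smooth q R' β' b')
    (S : Finset F)
    (hS : ∀ v ∈ S, Gen 𝔟 β' v) :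
    ∃ R₀ : ℕ, R₀.Coprime q ∧ ∀ (R : ℕ) (β : 𝓞 F) (b : 𝓞 K), R₀ ∣ R → Smooth q R β b →
      Adm2 (del 𝔟 𝔪 t β' β b) (S : Set F) := by
  classical
  have hβ0 : β' ≠ 0 := smooth_ne hq.one_lt.ne' hβ'
  choose nn hodd hnn using fun B : Finset F => de2_choice hq 𝔟 𝔪 hb hm β' hβ0 B
  refine ⟨∏ B ∈ S.powerset, nn B, ?_, ?_⟩
  · exact Nat.Coprime.prod_left fun B _ => hodd B
  intro R β b hR hsm
  refine ⟨⟨1 + ‖embK b‖ ^ 2, ?_⟩, ⟨1, one_pos, ?_⟩, ?_, ?_, ?_⟩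
  · intro z
    apply de2_bdd _ (by positivity)
    unfold del
    split_ifs
    · exact Or.inr (Or.inl rfl)
    · exact Or.inr (Or.inr rfl)
    · exact Or.inl rfl
  · intro z hz
    unfold del at hz
    by_cases hc : z ∈ cls 𝔟 𝔪 t ∧ z ∉ mulI 𝔟 β'
    · obtain ⟨⟨w, hw, _⟩, _⟩ := hc
      rw [Nat.cast_one, one_mul, ← hw]
      exact w.2
    · rw [if_neg hc] at hz
      exact absurd rfl hz
  · unfold del
    rw [if_neg]
    rintro ⟨_, h2⟩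
    apply h2
    exact ⟨0, 𝔟.zero_mem, by rw [de2_zero, mul_zero]⟩
  · intro v hv
    refine ⟨de2_unit hq.one_lt.ne' 𝔟 hb f hf h3 β' b' hβ' v (hS v hv), ?_⟩
    intro z hz htr
    unfold del at hz
    by_cases hc : z ∈ cls 𝔟 𝔪 t ∧ z ∉ mulI 𝔟 β'
    · obtain ⟨⟨w, hw, hwt⟩, h2⟩ := hc
      apply h2
      have hwb : w ∈ 𝔟 := by
        have h4 : w = (w - t) + t := by ring
        rw [h4]
        exact Ideal.add_mem _ (Ideal.mul_le_right hwt) ht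
      rw [← hw] at htr ⊢
      refine gen_ne 𝔟 hb β' hβ0 v (hS v hv) w hwb 0 ?_
      rw [htr]
      exact (map_zero (algebraMap (𝓞 K) K)).symm
    · rw [if_neg hc] at hz
      exact absurd rfl hz
  · intro B hB α hα0 hα
    have hB1 : ∀ v, v ∈ S.filter (fun v => v ∈ B) ↔ v ∈ B := by
      intro v
      rw [Finset.mem_filter]
      exact ⟨fun h => h.2, fun h => ⟨hB h, h⟩⟩
    obtain ⟨α', hα', hα'0, hα'B, hqq⟩ := hnn (S.filter (fun v => v ∈ B))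
      ⟨α, hα0, fun v hv => hα v ((hB1 v).1 hv)⟩
    have hα'b : α' ∈ 𝔟 := Ideal.mul_le_right hα'
    have hmem : β' * α' ∈ 𝔟 := 𝔟.mul_mem_left _ hα'b
    have hne : β' * α' ≠ 0 := mul_ne_zero hβ0 hα'0
    obtain ⟨r, x, hr, hx⟩ := de2_sum hq 𝔟 hsm (β' * α') hmem hne (fun q h1 h2 =>
      dvd_trans (hqq q h1 h2) (dvd_trans (Finset.dvd_prod_of_mem nn
        (Finset.mem_powerset.2 (Finset.filter_subset _ _))) hR))
    refine ⟨r, fun j => ((algebraMap (𝓞 K) (𝓞 F) (x j) * (β' * α') : 𝓞 F) : F), hr, ?_, ?_⟩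
    · intro j v hv
      dsimp only
      rw [de2_mul, de2_tr, hα'B v ((hB1 v).2 hv), mul_zero]
    · intro z
      have h1 : ∀ j, (z + ((algebraMap (𝓞 K) (𝓞 F) (x j) * (β' * α') : 𝓞 F) : F) ∈ cls 𝔟 𝔪 t ↔
          z ∈ cls 𝔟 𝔪 t) := fun j =>
        de2_cls 𝔟 𝔪 t _ ((𝔪 * 𝔟).mul_mem_left _ ((𝔪 * 𝔟).mul_mem_left _ hα')) z
      have h2 : ∀ j, (z + ((algebraMap (𝓞 K) (𝓞 F) (x j) * (β' * α') : 𝓞 F) : F) ∈ mulI 𝔟 β' ↔
          z ∈ mulI 𝔟 β') := by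
        intro j
        have h4 : algebraMap (𝓞 K) (𝓞 F) (x j) * (β' * α') =
            β' * (algebraMap (𝓞 K) (𝓞 F) (x j) * α') := by ring
        rw [h4]
        exact de2_mulI 𝔟 β' _ (𝔟.mul_mem_left _ hα'b) z
      unfold del
      simp only [h1, h2]
      by_cases hc : z ∈ cls 𝔟 𝔪 t ∧ z ∉ mulI 𝔟 β'
      · simp only [if_pos hc]
        obtain ⟨⟨w, hw, hwt⟩, _⟩ := hc
        have hwb : w ∈ 𝔟 := by
          have h4 : w = (w - t) + t := by ring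
          rw [h4]
          exact Ideal.add_mem _ (Ideal.mul_le_right hwt) ht
        rw [← hw]
        exact hx w hwb
      · simp only [if_neg hc]
        exact Finset.sum_const_zero

theorem de_adm1 (hq : q.Prime) (𝔟 𝔪 : Ideal (𝓞 F)) (hb : 𝔟 ≠ ⊥) (hm : 𝔪 ≠ ⊥) (t : 𝓞 F) (ht : t ∈ 𝔟)
    (ht' : t ∉ 𝔪 * 𝔟) :
    ∃ R₀ : ℕ, R₀.Coprime q ∧ ∀ (R : ℕ) (β : 𝓞 F) (b : 𝓞 K), R₀ ∣ R → Smooth q R β b →
      Adm2 (del1 𝔟 𝔪 t β b) (∅ : Set F) := by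
  classical
  obtain ⟨nn, hodd, hnn⟩ := de2_choice hq 𝔟 𝔪 hb hm (1 : 𝓞 F) one_ne_zero ∅
  obtain ⟨α', hα', hα'0, _, hqq⟩ := hnn ⟨1, one_ne_zero, fun v hv => absurd hv (Finset.notMem_empty v)⟩
  rw [one_mul] at hqq
  refine ⟨nn, hodd, ?_⟩
  intro R β b hR hsm
  refine ⟨⟨1 + ‖embK b‖ ^ 2, ?_⟩, ⟨1, one_pos, ?_⟩, ?_, ?_, ?_⟩
  · intro z
    apply de2_bdd _ (by positivity)
    unfold del1
    split_ifs
    · exact Or.inr (Or.inl rfl)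
    · exact Or.inr (Or.inr rfl)
    · exact Or.inl rfl
  · intro z hz
    unfold del1 at hz
    by_cases hc : z ∈ cls 𝔟 𝔪 t
    · obtain ⟨w, hw, _⟩ := hc
      rw [Nat.cast_one, one_mul, ← hw]
      exact w.2
    · rw [if_neg hc] at hz
      exact absurd rfl hz
  · unfold del1
    rw [if_neg]
    rintro ⟨w, hw, hwt⟩
    apply ht'
    have h4 : w = 0 := de2_inj (by rw [hw, de2_zero])
    rw [h4, zero_sub] at hwt
    have h5 := (𝔪 * 𝔟).neg_mem hwt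
    rwa [neg_neg] at h5
  · intro v hv
    exact absurd hv (Set.notMem_empty v)
  · intro B hB α hα0 hα
    have hα'b : α' ∈ 𝔟 := Ideal.mul_le_right hα'
    obtain ⟨r, x, hr, hx⟩ := de2_sum hq 𝔟 hsm α' hα'b hα'0 (fun q h1 h2 =>
      dvd_trans (hqq q h1 h2) hR)
    refine ⟨r, fun j => ((algebraMap (𝓞 K) (𝓞 F) (x j) * α' : 𝓞 F) : F), hr, ?_, ?_⟩
    · intro j v hv
      exact absurd (hB hv) (Set.notMem_empty v)
    · intro z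
      have h1 : ∀ j, (z + ((algebraMap (𝓞 K) (𝓞 F) (x j) * α' : 𝓞 F) : F) ∈ cls 𝔟 𝔪 t ↔
          z ∈ cls 𝔟 𝔪 t) := fun j =>
        de2_cls 𝔟 𝔪 t _ ((𝔪 * 𝔟).mul_mem_left _ hα') z
      unfold del1
      simp only [h1]
      by_cases hc : z ∈ cls 𝔟 𝔪 t
      · simp only [if_pos hc]
        obtain ⟨w, hw, hwt⟩ := hc
        have hwb : w ∈ 𝔟 := by
          have h4 : w = (w - t) + t := by ring
          rw [h4]
          exact Ideal.add_mem _ (Ideal.mul_le_right hwt) ht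
        rw [← hw]
        exact hx w hwb
      · simp only [if_neg hc]
        exact Finset.sum_const_zero

end Pool.Agent.Lib.MP_1a91b9_ntT.Ell
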