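import Pool.Agent.Lib.MP_1a91b9_ntT.D6.Sm
import Pool.Agent.Lib.MP_1a91b9_ntT.D6.De
import Pool.Agent.Lib.MP_1a91b9_ntT.S6.Co2

/-!
# D6, file Co1: effect of the smoothing for `Re s > 2` (port of `S6.Co1`)
-/

set_option autoImplicit false

namespace Pool.Agent.Lib.MP_1a91b9_ntT.Ell

open NumberField

universe u

variable {F : Type u} [Field F] [NumberField F] [Algebra K F] {q : ℕ}

/-- The summand is invariant under units of relative norm `1`. -/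
theorem co_termV (𝔪 : Ideal (𝓞 F))
    (hu : ∀ v ∈ unV 𝔪, Algebra.norm K ((v : 𝓞 F) : F) = 1) (v : (𝓞 F)ˣ) (hv : v ∈ unV 𝔪)
    (s : ℂ) (z : F) : term s (((v : 𝓞 F) : F) * z) = term s z := by
  have h1 : NF (((v : 𝓞 F) : F)) = 1 := by
    unfold NF
    rw [hu v hv, map_one]
  rw [co1_term_mul, h1]
  simp

theorem co_term {R : ℕ} (β : 𝓞 F) (b : 𝓞 K) (h : Smooth q R β b) (s : ℂ) (z : F) :
    term s ((β : F) * z) =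
      (starRingEnd ℂ) (embK (b : K)) * (‖embK (b : K)‖ : ℂ) ^ (-2 * s) * term s z := by
  have h1 : NF (β : F) = embK (b : K) := by
    unfold NF
    rw [h.nrm]
  rw [co1_term_mul, h1]

theorem co1_beta (𝔟 𝔪 : Ideal (𝓞 F)) {R : ℕ} (hR : (R : 𝓞 F) ∈ 𝔪) {β : 𝓞 F} {b : 𝓞 K}
    (h : Smooth q R β b) {w : 𝓞 F} (hw : w ∈ 𝔟) : (β - 1) * w ∈ 𝔪 * 𝔟 := by
  obtain ⟨c, hc⟩ := h.one
  rw [hc]
  exact Ideal.mul_mem_mul (𝔪.mul_mem_right c hR) hw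

theorem co_mul (𝔟 𝔪 : Ideal (𝓞 F)) (t : 𝓞 F) (ht : t ∈ 𝔟) {R : ℕ} (hR : (R : 𝓞 F) ∈ 𝔪)
    {β : 𝓞 F} {b : 𝓞 K} (h : Smooth q R β b) (z : F) :
    (z ∈ cls 𝔟 𝔪 t ∧ z ∈ mulI 𝔟 β) ↔ ∃ w ∈ cls 𝔟 𝔪 t, z = (β : F) * w := by
  constructor
  · rintro ⟨⟨w₁, hw₁, hm⟩, ⟨w₂, hw₂, hz⟩⟩
    refine ⟨(w₂ : F), ⟨w₂, rfl, ?_⟩, hz⟩
    have e : w₁ = β * w₂ := co1_coe_inj (by rw [hw₁, hz]; push_cast; rfl)
    have e2 : w₂ - t = (w₁ - t) - (β - 1) * w₂ := by rw [e]; ring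
    rw [e2]
    exact (𝔪 * 𝔟).sub_mem hm (co1_beta 𝔟 𝔪 hR h hw₂)
  · rintro ⟨w, ⟨w', hw', hm⟩, hz⟩
    have hb := co1_mem 𝔟 𝔪 ht hm
    refine ⟨⟨β * w', ?_, ?_⟩, ⟨w', hb, ?_⟩⟩
    · rw [hz, ← hw']; push_cast; rfl
    · have e2 : β * w' - t = (β - 1) * w' + (w' - t) := by ring
      rw [e2]
      exact (𝔪 * 𝔟).add_mem (co1_beta 𝔟 𝔪 hR h hb) hm
    · rw [hz, ← hw']

theorem co1_ne (hq : q ≠ 1) {R : ℕ} (f : ℕ) (hf : 3 ≤ f) (h3 : f ∣ R) {β : 𝓞 F} {b : 𝓞 K}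
    (h : Smooth q R β b) : (1 - (‖embK (b : K)‖ ^ 2 : ℝ) : ℂ) ≠ 0 := by
  have h1 := sm_gt hq f hf R h3 β b h
  intro h2
  have h3 : (1 - ‖embK (b : K)‖ ^ 2 : ℝ) = 0 := by exact_mod_cast h2
  linarith

theorem co_sup1 (hq : q ≠ 1) (𝔟 𝔪 : Ideal (𝓞 F)) (t : 𝓞 F) {R : ℕ} (f : ℕ) (hf : 3 ≤ f)
    (h3 : f ∣ R) {β : 𝓞 F} {b : 𝓞 K}
    (h : Smooth q R β b) : Function.support (del1 𝔟 𝔪 t β b) = cls 𝔟 𝔪 t := by
  ext z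
  rw [Function.mem_support]
  unfold del1
  by_cases hz : z ∈ cls 𝔟 𝔪 t
  · rw [if_pos hz]
    refine iff_of_true ?_ hz
    by_cases hm : z ∈ mulI 𝔟 β
    · rw [if_pos hm, mul_one]
      exact co1_ne hq f hf h3 h
    · rw [if_neg hm, mul_zero, sub_zero]
      exact one_ne_zero
  · rw [if_neg hz]
    exact iff_of_false (fun h => h rfl) hz

theorem co_sup (hq : q ≠ 1) (𝔟 𝔪 : Ideal (𝓞 F)) (t : 𝓞 F) (β' : 𝓞 F) {R : ℕ} (f : ℕ) (hf : 3 ≤ f)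
    (h3 : f ∣ R) {β : 𝓞 F}
    {b : 𝓞 K} (h : Smooth q R β b) :
    Function.support (del 𝔟 𝔪 t β' β b) = cls 𝔟 𝔪 t \ mulI 𝔟 β' := by
  ext z
  rw [Function.mem_support, Set.mem_sdiff]
  unfold del
  by_cases hz : z ∈ cls 𝔟 𝔪 t ∧ z ∉ mulI 𝔟 β'
  · rw [if_pos hz]
    refine iff_of_true ?_ hz
    by_cases hm : z ∈ mulI 𝔟 β
    · rw [if_pos hm, mul_one]
      exact co1_ne hq f hf h3 h
    · rw [if_neg hm, mul_zero, sub_zero]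
      exact one_ne_zero
  · rw [if_neg hz]
    exact iff_of_false (fun h => h rfl) hz

theorem co1_ne0 (hq : q ≠ 1) {R : ℕ} {β : 𝓞 F} {b : 𝓞 K} (h : Smooth q R β b) : (β : F) ≠ 0 := by
  intro h0
  have h1 := h.nrm
  rw [h0, Algebra.norm_zero] at h1
  exact kq_ne hq h.c0 (RingOfIntegers.ext h1.symm)

/-- The new representatives. -/
theorem co1_reps (𝔟 𝔪 : Ideal (𝓞 F)) (t : 𝓞 F) (ht : t ∈ 𝔟)
    {R : ℕ} (hR : (R : 𝓞 F) ∈ 𝔪) {β : 𝓞 F} {b : 𝓞 K} (h : Smooth q R β b) (X : Set F)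
    (hX : IsRepsU 𝔪 (cls 𝔟 𝔪 t) X) :
    IsRepsU 𝔪 (cls 𝔟 𝔪 t) {w | w ∈ cls 𝔟 𝔪 t ∧ (β : F) * w ∈ X} := by
  refine ⟨fun w hw => hw.1, fun z hz => ?_⟩
  have hβz : (β : F) * z ∈ cls 𝔟 𝔪 t := ((co_mul 𝔟 𝔪 t ht hR h _).mpr ⟨z, hz, rfl⟩).1
  obtain ⟨v, ⟨hv1, hv2⟩, huniq⟩ := hX.2 _ hβz
  refine ⟨v, ⟨hv1, co1_clsV 𝔟 𝔪 t ht v hv1 z hz, ?_⟩, ?_⟩
  · have e : (β : F) * (((v : 𝓞 F) : F) * z) = ((v : 𝓞 F) : F) * ((β : F) * z) := by ring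
    rw [e]; exact hv2
  · rintro v' ⟨h1, h2, h3⟩
    refine huniq v' ⟨h1, ?_⟩
    have e : ((v' : 𝓞 F) : F) * ((β : F) * z) = (β : F) * (((v' : 𝓞 F) : F) * z) := by ring
    rw [e]; exact h3

open Classical in
theorem co1_push (hq : q ≠ 1) (𝔟 𝔪 : Ideal (𝓞 F)) (t : 𝓞 F) (ht : t ∈ 𝔟)
    {R : ℕ} (hR : (R : 𝓞 F) ∈ 𝔪) {β : 𝓞 F} {b : 𝓞 K} (h : Smooth q R β b) (X : Set F)
    (hX : IsRepsU 𝔪 (cls 𝔟 𝔪 t) X) (f : F → ℂ) (a : ℂ)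
    (ha : HasSum (fun w : {w | w ∈ cls 𝔟 𝔪 t ∧ (β : F) * w ∈ X} => f ((β : F) * (w : F))) a) :
    HasSum (fun z : X => if (z : F) ∈ mulI 𝔟 β then f (z : F) else 0) a := by
  let Y : Set F := {w | w ∈ cls 𝔟 𝔪 t ∧ (β : F) * w ∈ X}
  let g : Y → X := fun w => ⟨(β : F) * (w : F), w.2.2⟩
  have hg : Function.Injective g := by
    intro w w' hw
    have h1 : (β : F) * (w : F) = (β : F) * (w' : F) := congrArg Subtype.val hw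
    exact Subtype.ext (mul_left_cancel₀ (co1_ne0 hq h) h1)
  have hout : ∀ x : X, x ∉ Set.range g →
      (fun z : X => if (z : F) ∈ mulI 𝔟 β then f (z : F) else 0) x = 0 := by
    intro x hx
    by_cases hm : (x : F) ∈ mulI 𝔟 β
    · exfalso
      apply hx
      obtain ⟨w, hw, hz⟩ := (co_mul 𝔟 𝔪 t ht hR h (x : F)).mp ⟨hX.1 x.2, hm⟩
      refine ⟨⟨w, hw, by rw [← hz]; exact x.2⟩, ?_⟩
      exact Subtype.ext hz.symm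
    · simp only
      rw [if_neg hm]
  rw [← hg.hasSum_iff hout]
  have e : (fun z : X => if (z : F) ∈ mulI 𝔟 β then f (z : F) else 0) ∘ g =
      fun w : Y => f ((β : F) * (w : F)) := by
    funext w
    have hm : (β : F) * (w : F) ∈ mulI 𝔟 β :=
      ((co_mul 𝔟 𝔪 t ht hR h _).mpr ⟨(w : F), w.2.1, rfl⟩).2
    show (if (β : F) * (w : F) ∈ mulI 𝔟 β then f ((β : F) * (w : F)) else 0) = _
    rw [if_pos hm]
  rw [e]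
  exact ha

/-- Effect of the smoothing by `β` on a summable family. -/
theorem co_smooth1 (hq : q ≠ 1) (𝔟 𝔪 : Ideal (𝓞 F)) (t : 𝓞 F) (ht : t ∈ 𝔟) (ht' : t ∉ 𝔪 * 𝔟)
    (hu : ∀ v ∈ unV 𝔪, Algebra.norm K ((v : 𝓞 F) : F) = 1) {R : ℕ} (hR : (R : 𝓞 F) ∈ 𝔪) {β : 𝓞 F} {b : 𝓞 K}
    (h : Smooth q R β b) (X : Set F) (hX : IsRepsU 𝔪 (cls 𝔟 𝔪 t) X) (s : ℂ) (a : ℂ)
    (ha : HasSum (fun z : X => term s (z : F)) a) :
    HasSum (fun z : X => del1 𝔟 𝔪 t β b z * term s (z : F))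
      (a * (1 - (‖embK (b : K)‖ ^ 2 : ℝ) * (starRingEnd ℂ) (embK (b : K)) *
        (‖embK (b : K)‖ : ℂ) ^ (-2 * s))) := by
  classical
  have hY := co1_reps 𝔟 𝔪 t ht hR h X hX
  have h1 : HasSum (fun w : {w | w ∈ cls 𝔟 𝔪 t ∧ (β : F) * w ∈ X} => term s (w : F)) a :=
    (co_indep 𝔪 (cls 𝔟 𝔪 t) X _ hX hY (fun v hv z hz => co1_clsV 𝔟 𝔪 t ht v hv z hz) (term s)
      (fun v hv z _ => co_termV 𝔪 hu v hv s z) a).mp ha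
  have h2 : HasSum (fun w : {w | w ∈ cls 𝔟 𝔪 t ∧ (β : F) * w ∈ X} => term s ((β : F) * (w : F)))
      ((starRingEnd ℂ) (embK (b : K)) * (‖embK (b : K)‖ : ℂ) ^ (-2 * s) * a) := by
    have e : (fun w : {w | w ∈ cls 𝔟 𝔪 t ∧ (β : F) * w ∈ X} => term s ((β : F) * (w : F))) =
        fun w : {w | w ∈ cls 𝔟 𝔪 t ∧ (β : F) * w ∈ X} =>
          (starRingEnd ℂ) (embK (b : K)) * (‖embK (b : K)‖ : ℂ) ^ (-2 * s) * term s (w : F) :=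
      funext fun w => co_term β b h s (w : F)
    rw [e]
    exact h1.mul_left _
  have h4 := co1_push hq 𝔟 𝔪 t ht hR h X hX (term s) _ h2
  have h5 := ha.sub (h4.mul_left ((‖embK (b : K)‖ ^ 2 : ℝ) : ℂ))
  have e : (fun z : X => del1 𝔟 𝔪 t β b z * term s (z : F)) = fun z : X => term s (z : F) -
      ((‖embK (b : K)‖ ^ 2 : ℝ) : ℂ) * (if (z : F) ∈ mulI 𝔟 β then term s (z : F) else 0) := by
    funext z
    unfold del1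
    rw [if_pos (hX.1 z.2)]
    by_cases hm : (z : F) ∈ mulI 𝔟 β
    · rw [if_pos hm, if_pos hm]; ring
    · rw [if_neg hm, if_neg hm]; ring
  have e2 : a * (1 - (‖embK (b : K)‖ ^ 2 : ℝ) * (starRingEnd ℂ) (embK (b : K)) *
        (‖embK (b : K)‖ : ℂ) ^ (-2 * s)) = a - ((‖embK (b : K)‖ ^ 2 : ℝ) : ℂ) *
        ((starRingEnd ℂ) (embK (b : K)) * (‖embK (b : K)‖ : ℂ) ^ (-2 * s) * a) := by ring
  rw [e, e2]
  exact h5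

theorem co1_cop (𝔟 𝔪 : Ideal (𝓞 F)) (t : 𝓞 F) (ht : t ∈ 𝔟) {R' : ℕ} {β β' : 𝓞 F} {b' : 𝓞 K}
    (h' : Smooth q R' β' b') (hcop : IsCoprime β β') {w : F} (hw : w ∈ cls 𝔟 𝔪 t) :
    (β' : F) * w ∈ mulI 𝔟 β ↔ w ∈ mulI 𝔟 β := by
  constructor
  · rintro ⟨u, hu, he⟩
    obtain ⟨w', hw', hm⟩ := hw
    have hb := co1_mem 𝔟 𝔪 ht hm
    obtain ⟨x, y, hxy⟩ := hcop
    have e1 : β' * w' = β * u := by
      refine co1_coe_inj ?_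
      show (β' : F) * (w' : F) = (β : F) * (u : F)
      rw [hw']
      exact he
    refine ⟨x * w' + y * u, 𝔟.add_mem (𝔟.mul_mem_left x hb) (𝔟.mul_mem_left y hu), ?_⟩
    have e2 : w' = β * (x * w' + y * u) := by
      linear_combination (-w') * hxy + y * e1
    rw [← hw']
    exact_mod_cast congrArg (fun q : 𝓞 F => (q : F)) e2
  · exact co1_mulI' 𝔟 β β' w

theorem co_smooth (hq : q ≠ 1) (𝔟 𝔪 : Ideal (𝓞 F)) (t : 𝓞 F) (ht : t ∈ 𝔟) (ht' : t ∉ 𝔪 * 𝔟)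
    (hu : ∀ v ∈ unV 𝔪, Algebra.norm K ((v : 𝓞 F) : F) = 1) {R R' : ℕ} (hR : (R : 𝓞 F) ∈ 𝔪) (hR' : (R' : 𝓞 F) ∈ 𝔪)
    {β β' : 𝓞 F} {b b' : 𝓞 K} (h : Smooth q R β b) (h' : Smooth q R' β' b')
    (hcop : IsCoprime β β') (X : Set F) (hX : IsRepsU 𝔪 (cls 𝔟 𝔪 t) X) (s : ℂ) (a : ℂ)
    (ha : HasSum (fun z : X => term s (z : F)) a) :
    HasSum (fun z : X => del 𝔟 𝔪 t β' β b z * term s (z : F))
      (a * (1 - (‖embK (b : K)‖ ^ 2 : ℝ) * (starRingEnd ℂ) (embK (b : K)) *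
        (‖embK (b : K)‖ : ℂ) ^ (-2 * s)) *
        (1 - (starRingEnd ℂ) (embK (b' : K)) * (‖embK (b' : K)‖ : ℂ) ^ (-2 * s))) := by
  classical
  have hY := co1_reps 𝔟 𝔪 t ht hR' h' X hX
  have h1 : HasSum (fun w : {w | w ∈ cls 𝔟 𝔪 t ∧ (β' : F) * w ∈ X} => term s (w : F)) a :=
    (co_indep 𝔪 (cls 𝔟 𝔪 t) X _ hX hY (fun v hv z hz => co1_clsV 𝔟 𝔪 t ht v hv z hz) (term s)
      (fun v hv z _ => co_termV 𝔪 hu v hv s z) a).mp ha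
  have hX1 := co_smooth1 hq 𝔟 𝔪 t ht ht' hu hR h X hX s a ha
  have hY1 := co_smooth1 hq 𝔟 𝔪 t ht ht' hu hR h _ hY s a h1
  set A1 := a * (1 - (‖embK (b : K)‖ ^ 2 : ℝ) * (starRingEnd ℂ) (embK (b : K)) *
        (‖embK (b : K)‖ : ℂ) ^ (-2 * s)) with hA1
  have h2 : HasSum (fun w : {w | w ∈ cls 𝔟 𝔪 t ∧ (β' : F) * w ∈ X} =>
      del1 𝔟 𝔪 t β b ((β' : F) * (w : F)) * term s ((β' : F) * (w : F)))
      ((starRingEnd ℂ) (embK (b' : K)) * (‖embK (b' : K)‖ : ℂ) ^ (-2 * s) * A1) := by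
    have e : (fun w : {w | w ∈ cls 𝔟 𝔪 t ∧ (β' : F) * w ∈ X} =>
        del1 𝔟 𝔪 t β b ((β' : F) * (w : F)) * term s ((β' : F) * (w : F))) =
        fun w : {w | w ∈ cls 𝔟 𝔪 t ∧ (β' : F) * w ∈ X} =>
          (starRingEnd ℂ) (embK (b' : K)) * (‖embK (b' : K)‖ : ℂ) ^ (-2 * s) *
            (del1 𝔟 𝔪 t β b w * term s (w : F)) := by
      funext w
      have hd : del1 𝔟 𝔪 t β b ((β' : F) * (w : F)) = del1 𝔟 𝔪 t β b (w : F) := by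
        have hc : (β' : F) * (w : F) ∈ cls 𝔟 𝔪 t :=
          ((co_mul 𝔟 𝔪 t ht hR' h' _).mpr ⟨(w : F), w.2.1, rfl⟩).1
        unfold del1
        rw [if_pos hc, if_pos w.2.1, co1_cop 𝔟 𝔪 t ht h' hcop w.2.1]
      rw [hd, co_term β' b' h' s (w : F)]
      ring
    rw [e]
    exact hY1.mul_left _
  have h4 := co1_push hq 𝔟 𝔪 t ht hR' h' X hX (fun z => del1 𝔟 𝔪 t β b z * term s z) _ h2
  have h5 := hX1.sub h4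
  have e : (fun z : X => del 𝔟 𝔪 t β' β b z * term s (z : F)) =
      fun z : X => del1 𝔟 𝔪 t β b z * term s (z : F) -
        (if (z : F) ∈ mulI 𝔟 β' then del1 𝔟 𝔪 t β b (z : F) * term s (z : F) else 0) := by
    funext z
    unfold del del1
    by_cases hm : (z : F) ∈ mulI 𝔟 β'
    · rw [if_neg (fun hh => hh.2 hm), if_pos hm]; ring
    · rw [if_pos ⟨hX.1 z.2, hm⟩, if_neg hm, if_pos (hX.1 z.2)]; ring
  have e2 : A1 * (1 - (starRingEnd ℂ) (embK (b' : K)) * (‖embK (b' : K)‖ : ℂ) ^ (-2 * s)) =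
      A1 - (starRingEnd ℂ) (embK (b' : K)) * (‖embK (b' : K)‖ : ℂ) ^ (-2 * s) * A1 := by ring
  rw [e, e2]
  exact h5



end Pool.Agent.Lib.MP_1a91b9_ntT.Ell
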