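import Pool.Agent.Lib.MP_1a91b9_ntT.D6.Du
import Pool.Agent.Lib.MP_1a91b9_ntT.S6.Fr1

/-!
# D6, file Fr: unimodular frames have `q`-integral values (port of `S6.Fr1`)
-/

set_option autoImplicit false

namespace Pool.Agent.Lib.MP_1a91b9_ntT.Ell

open NumberField

universe u

variable {F : Type u} [Field F] [NumberField F] [Algebra K F] {q : ℕ}

theorem cop_ne (hq : q.Prime) {k : ℕ} (hk : k.Coprime q) : k ≠ 0 := by
  rintro rfl
  rw [Nat.coprime_zero_left] at hk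
  exact hq.one_lt.ne' hk

/-- A natural number prime to `q` is a multiple of a smoothing element. -/
theorem fr1_mult {R : ℕ} {β : 𝓞 F} {b : 𝓞 K} (h : Smooth q R β b) :
    ∃ (k : ℕ) (x : 𝓞 F), k.Coprime q ∧ (k : 𝓞 F) = β * x := by
  obtain ⟨c, k, hk, hc, -⟩ := kq_odd b h.c0
  obtain ⟨y, hy⟩ := nf_dvd β b h.nrm
  refine ⟨k, y * algebraMap (𝓞 K) (𝓞 F) c, hk, ?_⟩
  have e : (k : 𝓞 F) = algebraMap (𝓞 K) (𝓞 F) (k : 𝓞 K) := by simp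
  rw [e, ← hc, map_mul, hy]
  ring

theorem fr_val (hq : q.Prime) {m : ℕ} (𝔟 𝔪 : Ideal (𝓞 F))
    (hm2 : IsCoprime 𝔪 (Ideal.span {(q : 𝓞 F)})) (t : 𝓞 F) (ht : t ∈ 𝔟) {R' R : ℕ} (β' β : 𝓞 F)
    (b' b : 𝓞 K) (hβ' : Smooth q R' β' b') (hβ : Smooth q R β b)
    (bb : Module.Basis (Fin (m + 1)) K F)
    (hbb : ∀ v : F, v ∈ DL 𝔟 ↔ ∀ i, ∃ a : 𝓞 K, bb.repr v i = a)
    (hbb' : ∀ z : F, (∀ i, ∃ a : 𝓞 K, Algebra.trace K F (bb i * z) = a) ↔ ∃ w ∈ 𝔟, (w : F) = z)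
    (v : Fin (m + 1) → F) (hv : ∀ i, Gen 𝔟 β' (v i)) (hu : Unimod q bb v) :
    ∃ D c : ℕ, D.Coprime q ∧ c.Coprime q ∧ 0 < D ∧ 0 < c ∧
      (∀ i z, del 𝔟 𝔪 t β' β b z ≠ 0 → ∃ a : 𝓞 K, (D : K) * Algebra.trace K F (v i * z) = a) ∧
      (∀ μ : F, (∀ i, ∃ a : 𝓞 K, Algebra.trace K F (v i * μ) = (c : K) * a) →
        ∀ z, del 𝔟 𝔪 t β' β b (z + μ) = del 𝔟 𝔪 t β' β b z) := by
  obtain ⟨k', x', hk', hx'⟩ := fr1_mult hβ'
  obtain ⟨k, x, hk, hx⟩ := fr1_mult hβ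
  have hkv : ∀ i, ((k' : 𝓞 F) : F) * v i ∈ DL 𝔟 := fun i => fr1_k hx' (hv i).1
  obtain ⟨ku, u, hku, hu2, hud⟩ := hu
  obtain ⟨cu, k₂, hk₂, hcu, -⟩ := kq_odd u hu2
  obtain ⟨N, hNodd, hNm⟩ : ∃ N : ℕ, N.Coprime q ∧ (N : 𝓞 F) ∈ 𝔪 :=
    ⟨Ideal.absNorm 𝔪, absNorm_cop hq 𝔪 hm2, Ideal.absNorm_mem 𝔪⟩
  obtain ⟨c₁, hc₁⟩ : ∃ c₁ : ℕ, c₁ = N * k' * k := ⟨_, rfl⟩
  have hc₁odd : c₁.Coprime q := by
    rw [hc₁]; exact Nat.Coprime.mul_left (Nat.Coprime.mul_left hNodd hk') hk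
  have hcodd : (c₁ * (k' ^ (m + 1) * k₂)).Coprime q :=
    Nat.Coprime.mul_left hc₁odd (Nat.Coprime.mul_left (Nat.Coprime.pow_left _ hk') hk₂)
  have hk'0 : (k' : K) ≠ 0 := by
    exact_mod_cast cop_ne hq hk'
  have hk₂0 : (k₂ : K) ≠ 0 := by
    exact_mod_cast cop_ne hq hk₂
  have hc₁0 : c₁ ≠ 0 := cop_ne hq hc₁odd
  refine ⟨k', c₁ * (k' ^ (m + 1) * k₂), hk', hcodd, Nat.pos_of_ne_zero (cop_ne hq hk'),
    Nat.pos_of_ne_zero (cop_ne hq hcodd), ?_, ?_⟩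
  · intro i z hz
    have hzc : z ∈ cls 𝔟 𝔪 t := by
      by_contra hzc
      apply hz
      unfold del
      rw [if_neg (fun h => hzc h.1)]
    obtain ⟨w, rfl, hw⟩ := hzc
    have hw𝔟 : w ∈ 𝔟 := by
      have h0 : 𝔪 * 𝔟 ≤ 𝔟 := Ideal.mul_le_right
      have h1 : w - t ∈ 𝔟 := h0 hw
      have h2 : w = (w - t) + t := by ring
      rw [h2]; exact 𝔟.add_mem h1 ht
    obtain ⟨a, ha⟩ := hkv i w hw𝔟
    refine ⟨a, ?_⟩
    rw [← ha, ← fr1_tr, mul_assoc]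
  · intro μ hμ z
    choose a ha using hμ
    -- the matrix of the values
    have hW : ∀ i j, ∃ s : 𝓞 K, (k' : K) * bb.repr (v i) j = s := by
      intro i j
      obtain ⟨s, hs⟩ := (hbb _).mp (hkv i) j
      refine ⟨s, ?_⟩
      rw [← hs, fr1_cast, ← Algebra.smul_def, map_smul, Finsupp.smul_apply, smul_eq_mul]
    choose W hW using hW
    have hdet : (ku : K) * (Matrix.of fun i j => bb.repr (v i) j).det = u := by
      rw [← hud, Module.Basis.det_apply, ← Matrix.det_transpose]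
      rfl
    have hy : ∀ i, ∑ j, (Matrix.of fun i j => bb.repr (v i) j) i j *
        Algebra.trace K F (bb j * μ) = ((c₁ * (k' ^ (m + 1) * k₂) : ℕ) : K) * a i := by
      intro i
      rw [← ha i]
      conv_rhs => rw [← bb.sum_repr (v i)]
      rw [Finset.sum_mul, map_sum]
      refine Finset.sum_congr rfl fun j _ => ?_
      rw [smul_mul_assoc, map_smul, smul_eq_mul]
      rfl
    have hs := fun j => fr1_cramer (Matrix.of fun i j => bb.repr (v i) j) k' ku k₂ u cu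
      (Matrix.of fun i j => W i j) (fun i j => (hW i j).symm) hdet hcu hk'0 hk₂0 c₁
      (fun j => Algebra.trace K F (bb j * μ)) a hy j
    have hcF : (algebraMap K F (c₁ : K)) ≠ 0 := by
      rw [map_natCast]; exact_mod_cast hc₁0
    have hcK : (c₁ : K) ≠ 0 := by exact_mod_cast hc₁0
    obtain ⟨w, hw, hwz⟩ := (hbb' ((algebraMap K F (c₁ : K)⁻¹) * μ)).mp (by
      intro i
      obtain ⟨s, hs'⟩ := hs i
      refine ⟨s, ?_⟩
      have e : bb i * (algebraMap K F (c₁ : K)⁻¹ * μ) = (c₁ : K)⁻¹ • (bb i * μ) := by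
        rw [Algebra.smul_def]; ring
      rw [e, map_smul, smul_eq_mul]
      rw [hs', ← mul_assoc, inv_mul_cancel₀ hcK, one_mul])
    have hμ : μ = (((c₁ : 𝓞 F) * w : 𝓞 F) : F) := by
      rw [fr1_vm, fr1_vn, hwz, map_inv₀, map_natCast, ← mul_assoc, mul_inv_cancel₀ (by exact_mod_cast hc₁0), one_mul]
    rw [hμ]
    apply fr1_del (x' := x' * ((N * k : ℕ) : 𝓞 F)) (x := x * ((N * k' : ℕ) : 𝓞 F)) _ _ _ hw
    · rw [hc₁]
      have e : ((N * k' * k : ℕ) : 𝓞 F) * w = (N : 𝓞 F) * ((k' * k : ℕ) * w) := by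
        push_cast; ring
      rw [e]
      exact Ideal.mul_mem_mul hNm (𝔟.mul_mem_left _ hw)
    · rw [hc₁, ← mul_assoc, ← hx']; push_cast; ring
    · rw [hc₁, ← mul_assoc, ← hx]; push_cast; ring

theorem fr_det (hq : q.Prime) {m : ℕ} (A : ValuationSubring ℂ) (hA : Pl q A) (hU : UQ q F)
    (𝔟 : Ideal (𝓞 F)) (h2 : IsCoprime 𝔟 (Ideal.span {(q : 𝓞 F)})) {R' : ℕ} (β' : 𝓞 F) (b' : 𝓞 K)
    (hβ' : Smooth q R' β' b') (σ : Fin (m + 1) → (F →ₐ[K] ℂ)) (v : Fin (m + 1) → F)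
    (hv : ∀ i, Gen 𝔟 β' (v i)) : (Matrix.of fun i j => σ j (v i)).det ∈ A := by
  obtain ⟨d, hd, hdi⟩ := dl_int hq 𝔟 h2 hU
  obtain ⟨k', x', hk', hx'⟩ := fr1_mult hβ'
  have hmem : ∀ i j, σ j (v i) ∈ A := by
    intro i j
    apply kq_mem A hA (σ j (v i)) (d * k') (Nat.Coprime.mul_left hd hk')
    have h1 := hdi _ (fr1_k hx' (hv i).1)
    have h3 : IsIntegral ℤ (σ j ((d : F) * (((k' : 𝓞 F) : F) * v i))) :=
      h1.map (σ j).toRingHom.toIntAlgHom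
    have e : σ j ((d : F) * (((k' : 𝓞 F) : F) * v i)) = ((d * k' : ℕ) : ℂ) * σ j (v i) := by
      rw [fr1_vn, map_mul, map_mul, map_natCast, map_natCast]
      push_cast; ring
    rw [← e]
    exact h3
  have e : (Matrix.of fun i j => σ j (v i)) =
      (A.subtype).mapMatrix (Matrix.of fun i j => (⟨σ j (v i), hmem i j⟩ : A)) := by
    ext i j
    rfl
  rw [e, ← RingHom.map_det]
  exact (Matrix.det _ : A).2

theorem fr_mem (hq : q.Prime) {m : ℕ} (A : ValuationSubring ℂ) (hA : Pl q A) (hU : UQ q F)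
    (𝔟 𝔪 : Ideal (𝓞 F)) (h2 : IsCoprime 𝔟 (Ideal.span {(q : 𝓞 F)})) (t : 𝓞 F) {R' : ℕ} (β' β : 𝓞 F)
    (b' b : 𝓞 K) (hβ' : Smooth q R' β' b') (σ : Fin (m + 1) → (F →ₐ[K] ℂ))
    (v : Fin (m + 1) → F) (hv : ∀ i, Gen 𝔟 β' (v i)) (D c : ℕ) (hD : D.Coprime q) (hc : c.Coprime q)
    (zz : (Fin (m + 1) → K) → F) (κ : ℂ)
    (hE : ∀ k : ℕ, k.Coprime q → ∀ z : ℂ, (∃ l : ℤ × ℤ, (k : ℂ) * z = lp l) → E1 z / κ ∈ A) :
    ((Matrix.of fun i j => σ j (v i)).det *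
      ∑ x : Fin (m + 1) → Fin (c * D) × Fin (c * D),
        del 𝔟 𝔪 t β' β b (zz fun i => ixK D c (x i)) *
          ∏ i, (c : ℂ)⁻¹ * E1 (ixC D c (x i) / c)) / κ ^ (m + 1) ∈ A := by
  have hc0 : (c : ℂ) ≠ 0 := by
    exact_mod_cast cop_ne hq hc
  have hD0 : (D : ℂ) ≠ 0 := by
    exact_mod_cast cop_ne hq hD
  have e : ((Matrix.of fun i j => σ j (v i)).det *
      ∑ x : Fin (m + 1) → Fin (c * D) × Fin (c * D),
        del 𝔟 𝔪 t β' β b (zz fun i => ixK D c (x i)) *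
          ∏ i, (c : ℂ)⁻¹ * E1 (ixC D c (x i) / c)) / κ ^ (m + 1) =
      (Matrix.of fun i j => σ j (v i)).det *
      ∑ x : Fin (m + 1) → Fin (c * D) × Fin (c * D),
        del 𝔟 𝔪 t β' β b (zz fun i => ixK D c (x i)) *
          ∏ i, (c : ℂ)⁻¹ * (E1 (ixC D c (x i) / c) / κ) := by
    rw [mul_div_assoc, Finset.sum_div]
    congr 1
    refine Finset.sum_congr rfl fun x _ => ?_
    rw [mul_div_assoc]
    congr 1
    have : ∏ i : Fin (m + 1), (c : ℂ)⁻¹ * (E1 (ixC D c (x i) / c) / κ) =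
        (∏ i : Fin (m + 1), (c : ℂ)⁻¹ * E1 (ixC D c (x i) / c)) / ∏ _i : Fin (m + 1), κ := by
      rw [← Finset.prod_div_distrib]
      refine Finset.prod_congr rfl fun i _ => ?_
      rw [mul_div_assoc]
    rw [this, Finset.prod_const, Finset.card_univ, Fintype.card_fin]
  rw [e]
  refine A.mul_mem _ _ (fr_det hq A hA hU 𝔟 h2 β' b' hβ' σ v hv) ?_
  refine sum_mem fun x _ => ?_
  refine A.mul_mem _ _ (fr1_delmem A 𝔟 𝔪 t β' β b _) ?_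
  refine prod_mem fun i _ => ?_
  refine A.mul_mem _ _ (d3_inv A hA c hc) ?_
  refine hE (D * c) (Nat.Coprime.mul_left hD hc) _ ⟨(((x i).1 : ℕ), ((x i).2 : ℕ)), ?_⟩
  unfold ixC lp
  push_cast
  field_simp

end Pool.Agent.Lib.MP_1a91b9_ntT.Ell
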