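import Pool.Agent.Lib.MP_1a91b9_ntT.D6.Co2
import Pool.Agent.Lib.MP_1a91b9_ntT.D6.Ar
import Pool.Agent.Lib.MP_1a91b9_ntT.D6.Fr
import Pool.Agent.Lib.MP_1a91b9_ntT.S6.Co3

/-!
# D6, file Co3: `q`-integrality of the value at 1 (port of `S6.Co3`)
-/

set_option autoImplicit false

namespace Pool.Agent.Lib.MP_1a91b9_ntT.Ell

open NumberField

universe u

variable {F : Type u} [Field F] [NumberField F] [Algebra K F] {q : ℕ}

theorem co_S (hq : q.Prime) {m : ℕ} (𝔟 : Ideal (𝓞 F)) {R : ℕ} (β' : 𝓞 F) (b' : 𝓞 K)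
    (hβ : Smooth q R β' b') (bb : Module.Basis (Fin (m + 1)) K F)
    (hbb : ∀ v : F, v ∈ DL 𝔟 ↔ ∀ i, ∃ a : 𝓞 K, bb.repr v i = a) (v₀ : F) (hv₀ : Gen 𝔟 β' v₀)
    (ε : Fin m → (𝓞 F)ˣ) :
    ∃ S : Finset F, (∀ w ∈ S, Gen 𝔟 β' w) ∧
      (∀ T : Finset (Fin m), v₀ * ∏ i ∈ T, ((ε i : 𝓞 F) : F) ∈ S) ∧
      ∀ (I : (Fin (m + 1) → F) → ℂ) (M : AddSubgroup ℂ),
          (∀ w : Fin (m + 2) → F, (∀ i, w i ∈ S) →
            ∑ i : Fin (m + 2), (-1) ^ (i : ℕ) * I (fun j => w (i.succAbove j)) = 0) →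
          (∀ w : Fin (m + 1) → F, (∀ i, w i ∈ S) → ¬ LinearIndependent K w → I w = 0) →
          (∀ w : Fin (m + 1) → F, (∀ i, w i ∈ S) → LinearIndependent K w → Unimod q bb w →
            I w ∈ M) →
          ∀ s : Equiv.Perm (Fin m), I (path (fun i => ((ε i : 𝓞 F) : F)) s v₀) ∈ M := by
  classical
  set ε' : Fin m → F := fun i => ((ε i : 𝓞 F) : F) with hε'
  have hgenT : ∀ T : Finset (Fin m), Gen 𝔟 β' (v₀ * ∏ i ∈ T, ε' i) := by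
    intro T
    have h1 : v₀ * ∏ i ∈ T, ε' i = (((∏ i ∈ T, ε i : (𝓞 F)ˣ) : 𝓞 F) : F) * v₀ := by
      have h2 := map_prod (algebraMap (𝓞 F) F) (fun i => ((ε i : (𝓞 F)ˣ) : 𝓞 F)) T
      rw [mul_comm, Units.coe_prod]
      exact congrArg (· * v₀) h2.symm
    rw [h1]
    exact gen_unit 𝔟 β' v₀ hv₀ _
  have hgenp : ∀ (s : Equiv.Perm (Fin m)) (j : Fin (m + 1)), Gen 𝔟 β' (path ε' s v₀ j) := by
    intro s j
    obtain ⟨T, hT⟩ := co3_path ε' s v₀ j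
    rw [hT]
    exact hgenT T
  have hSs : ∀ s : Equiv.Perm (Fin m), ∃ S : Finset F, (∀ w ∈ S, Gen 𝔟 β' w) ∧
      (LinearIndependent K (path ε' s v₀) → ∀ (I : (Fin (m + 1) → F) → ℂ) (M : AddSubgroup ℂ),
          (∀ w : Fin (m + 2) → F, (∀ i, w i ∈ S) →
            ∑ i : Fin (m + 2), (-1) ^ (i : ℕ) * I (fun j => w (i.succAbove j)) = 0) →
          (∀ w : Fin (m + 1) → F, (∀ i, w i ∈ S) → ¬ LinearIndependent K w → I w = 0) →
          (∀ w : Fin (m + 1) → F, (∀ i, w i ∈ S) → LinearIndependent K w → Unimod q bb w →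
            I w ∈ M) → I (path ε' s v₀) ∈ M) := by
    intro s
    by_cases hl : LinearIndependent K (path ε' s v₀)
    · obtain ⟨e, k, u, h1, h2, h3⟩ := ar_exp hq 𝔟 β' b' hβ bb hbb (path ε' s v₀) (hgenp s) hl
      obtain ⟨S, hS1, -, hS3⟩ := ar_main hq 𝔟 β' b' hβ bb hbb e (path ε' s v₀) (hgenp s)
        ⟨k, u, h1, h2, h3⟩
      exact ⟨S, hS1, fun _ => hS3⟩
    · exact ⟨∅, fun w hw => absurd hw (Finset.notMem_empty w), fun h => absurd h hl⟩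
  choose Ss hSs1 hSs2 using hSs
  refine ⟨Finset.univ.image (fun T : Finset (Fin m) => v₀ * ∏ i ∈ T, ε' i) ∪
    Finset.univ.biUnion Ss, ?_, ?_, ?_⟩
  · intro w hw
    rcases Finset.mem_union.1 hw with h | h
    · obtain ⟨T, -, rfl⟩ := Finset.mem_image.1 h
      exact hgenT T
    · obtain ⟨s, -, hs⟩ := Finset.mem_biUnion.1 h
      exact hSs1 s w hs
  · intro T
    exact Finset.mem_union_left _ (Finset.mem_image.2 ⟨T, Finset.mem_univ _, rfl⟩)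
  · intro I M hI1 hI2 hI3 s
    by_cases hl : LinearIndependent K (path ε' s v₀)
    · have hsub : ∀ w ∈ Ss s, w ∈ Finset.univ.image (fun T : Finset (Fin m) => v₀ * ∏ i ∈ T, ε' i) ∪
          Finset.univ.biUnion Ss := fun w hw =>
        Finset.mem_union_right _ (Finset.mem_biUnion.2 ⟨s, Finset.mem_univ _, hw⟩)
      exact hSs2 s hl I M (fun w hw => hI1 w fun i => hsub _ (hw i))
        (fun w hw => hI2 w fun i => hsub _ (hw i)) (fun w hw => hI3 w fun i => hsub _ (hw i))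
    · rw [hI2 _ (fun j => ?_) hl]
      · exact M.zero_mem
      · obtain ⟨T, hT⟩ := co3_path ε' s v₀ j
        rw [hT]
        exact Finset.mem_union_left _ (Finset.mem_image.2 ⟨T, Finset.mem_univ _, rfl⟩)

/-- The values at `1` of the factors. -/
theorem co3_fac (A : ValuationSubring ℂ) (hA : Pl q A) (b b' : 𝓞 K) (h0 : IsCoprime b (q : 𝓞 K))
    (h1 : IsCoprime (b - 1) (q : 𝓞 K)) (h0' : IsCoprime b' (q : 𝓞 K))
    (h1' : IsCoprime (b' - 1) (q : 𝓞 K)) :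
    facQ b 1 ≠ 0 ∧ (facQ b 1)⁻¹ ∈ A ∧ facP b' 1 ≠ 0 ∧ (facP b' 1)⁻¹ ∈ A := by
  obtain ⟨-, -, hb⟩ := kq_unitA A hA b h0
  obtain ⟨hb'A, -, hb'⟩ := kq_unitA A hA b' h0'
  have e1 : facQ b 1 = -(starRingEnd ℂ) (embK ((b - 1 : 𝓞 K) : K)) := by
    unfold facQ
    rw [co3_cpow _ hb]
    have h2 : (((‖embK (b : K)‖ ^ 2 : ℝ)) : ℂ) = embK (b : K) * (starRingEnd ℂ) (embK (b : K)) := by
      rw [Complex.mul_conj, Complex.normSq_eq_norm_sq]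
    have h3 : (starRingEnd ℂ) (embK (b : K)) ≠ 0 := by
      simpa using hb
    have h4 : embK ((b - 1 : 𝓞 K) : K) = embK (b : K) - 1 := by
      push_cast
      rw [map_sub, map_one]
    rw [h2, h4, map_sub, map_one]
    field_simp
    ring
  have e2 : facP b' 1 = embK ((b' - 1 : 𝓞 K) : K) * (embK (b' : K))⁻¹ := by
    unfold facP
    rw [co3_cpow _ hb']
    have h3 : (starRingEnd ℂ) (embK (b' : K)) ≠ 0 := by
      simpa using hb'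
    have h4 : embK ((b' - 1 : 𝓞 K) : K) = embK (b' : K) - 1 := by
      push_cast
      rw [map_sub, map_one]
    rw [h4]
    field_simp
  obtain ⟨-, hc2, hc3⟩ := kq_conj A hA (b - 1) h1
  obtain ⟨-, hd2, hd3⟩ := kq_unitA A hA (b' - 1) h1'
  refine ⟨?_, ?_, ?_, ?_⟩
  · rw [e1]
    exact neg_ne_zero.2 hc3
  · rw [e1, inv_neg]
    exact neg_mem hc2
  · rw [e2]
    exact mul_ne_zero hd3 (inv_ne_zero hb')
  · rw [e2, mul_inv, inv_inv]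
    exact mul_mem hd2 hb'A

/-- The complex numbers `x` with `x / κ ^ n` integral. -/
def co_M (A : ValuationSubring ℂ) (κ : ℂ) (n : ℕ) : AddSubgroup ℂ where
  carrier := {x | x / κ ^ n ∈ A}
  zero_mem' := by
    rw [Set.mem_ofPred_eq, zero_div]
    exact zero_mem A
  add_mem' := by
    intro a b ha hb
    rw [Set.mem_ofPred_eq, add_div]
    exact add_mem ha hb
  neg_mem' := by
    intro a ha
    rw [Set.mem_ofPred_eq, neg_div]
    exact neg_mem ha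

theorem co_memM (A : ValuationSubring ℂ) (κ : ℂ) (n : ℕ) (x : ℂ) :
    x ∈ co_M A κ n ↔ x / κ ^ n ∈ A :=
  Iff.rfl

theorem co_val (hq : q.Prime) (f : ℕ) (hf : 3 ≤ f) (hfq : f.Coprime q) (ε₀ : 𝓞 K)
    (hε₀ : IsCoprime ε₀ (q : 𝓞 K)) (hε₁ : IsCoprime (ε₀ ^ Module.finrank K F - 1) (q : 𝓞 K))
    {m : ℕ} (σ : Fin (m + 1) → (F →ₐ[K] ℂ)) (hσ : Function.Bijective σ) (hU : UQ q F)
    (𝔟 𝔪 : Ideal (𝓞 F)) (hb : 𝔟 ≠ ⊥) (hb2 : IsCoprime 𝔟 (Ideal.span {(q : 𝓞 F)})) (hm : 𝔪 ≠ ⊥)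
    (hm2 : IsCoprime 𝔪 (Ideal.span {(q : 𝓞 F)}))
    (hu : ∀ v ∈ unV 𝔪, Algebra.norm K ((v : 𝓞 F) : F) = 1)
    (htor : ∀ v ∈ unV 𝔪, ∀ k : ℕ, 0 < k → v ^ k = 1 → v = 1)
    (t : 𝓞 F) (ht : t ∈ 𝔟) (ht' : t ∉ 𝔪 * 𝔟)
    (g : ℂ → ℂ) (hg : Differentiable ℂ g)
    (hgs : ∀ X : Set F, IsRepsU 𝔪 (cls 𝔟 𝔪 t) X →
      ∀ s : ℂ, 2 < s.re → HasSum (fun z : X => term s (z : F)) (g s))
    (A : ValuationSubring ℂ) (hA : Pl q A) (κ : ℂ)
    (hE : ∀ k : ℕ, k.Coprime q → ∀ z : ℂ, (∃ l : ℤ × ℤ, (k : ℂ) * z = lp l) → E1 z / κ ∈ A) :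
    g 1 / κ ^ (m + 1) ∈ A := by
  classical
  have hn : Module.finrank K F = m + 1 := nf_card σ hσ
  have hq1 : q ≠ 1 := hq.one_lt.ne'
  obtain ⟨N, hNodd, hN⟩ : ∃ N : ℕ, N.Coprime q ∧ (N : 𝓞 F) ∈ 𝔪 :=
    ⟨Ideal.absNorm 𝔪, absNorm_cop hq 𝔪 hm2, Ideal.absNorm_mem 𝔪⟩
  have hN3 : (f * N).Coprime q := Nat.Coprime.mul_left hfq hNodd
  obtain ⟨β', b', hβ'⟩ := sm_exists (F := F) hq ε₀ hε₀ hε₁ (f * N) hN3
  have hR' : ((f * N : ℕ) : 𝓞 F) ∈ 𝔪 := by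
    push_cast
    exact 𝔪.mul_mem_left _ hN
  obtain ⟨bb, hbb, hbb'⟩ := dl_basis 𝔟 hb hn
  obtain ⟨v₀, hv₀⟩ := gen_exists hq1 𝔟 hb hβ'
  obtain ⟨ε, hε, hεb⟩ := un_free σ hσ 𝔪 hm htor
  obtain ⟨S, hS1, hS2, hS3⟩ := co_S hq 𝔟 β' b' hβ' bb hbb v₀ hv₀ ε
  obtain ⟨R₀, hR₀, hadm⟩ := de_adm hq 𝔟 𝔪 hb hm t ht f hf (Dvd.intro N rfl) β' b' hβ' S hS1
  have hN1 : (Ideal.absNorm (Ideal.span {β'})).Coprime q := absNorm_cop' hq β' (de_copq hβ')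
  have hN2 : β' ∣ ((Ideal.absNorm (Ideal.span {β'}) : ℕ) : 𝓞 F) := by
    rw [← Ideal.mem_span_singleton]
    exact Ideal.absNorm_mem _
  set N' : ℕ := Ideal.absNorm (Ideal.span {β'}) with hN'
  have hRodd : (f * R₀ * N * N').Coprime q :=
    Nat.Coprime.mul_left (Nat.Coprime.mul_left (Nat.Coprime.mul_left hfq hR₀) hNodd) hN1
  obtain ⟨β, b, hβ⟩ := sm_exists (F := F) hq ε₀ hε₀ hε₁ (f * R₀ * N * N') hRodd
  have hR : ((f * R₀ * N * N' : ℕ) : 𝓞 F) ∈ 𝔪 := by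
    push_cast
    exact 𝔪.mul_mem_right _ (𝔪.mul_mem_left _ hN)
  have hcop : IsCoprime β β' := by
    have h := de_cop hq hβ N' (Nat.pos_of_ne_zero (cop_ne hq hN1)) (fun t _ ht2 => ht2.mul_left _)
    exact h.of_isCoprime_of_dvd_right hN2
  have hAdm := hadm (f * R₀ * N * N') β b
    (((Dvd.intro_left f rfl).mul_right _).mul_right _) hβ
  obtain ⟨I, hI1, hI2, hI3, hI4⟩ := s2_main σ hσ (del 𝔟 𝔪 t β' β b) (S : Set F) S.finite_toSet hAdm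
  set ε' : Fin m → F := fun i => ((ε i : 𝓞 F) : F) with hε'
  obtain ⟨g₂, hg₂, hg₂s, hg₂v⟩ := hI4 ε' (fun i => by
      have h1 : ((ε i : (𝓞 F)ˣ) : 𝓞 F) ≠ 0 := (ε i).ne_zero
      exact RingOfIntegers.coe_ne_zero_iff.2 h1)
    (fun i => hu (ε i) (hε i))
    (fun i z => (co_inv 𝔟 𝔪 t ht β' β b (ε i) (hε i) z).1)
    (un_det σ hσ 𝔪 hm ε hεb)
  -- the value of `g₂` at `1`
  have hval := hg₂v v₀ (by
      have h1 := hS2 ∅
      rw [Finset.prod_empty, mul_one] at h1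
      exact (hAdm.ne v₀ h1).1) (fun T => hS2 T)
  have hpathM : ∀ s : Equiv.Perm (Fin m), I (path ε' s v₀) ∈ co_M A κ (m + 1) := by
    refine hS3 I (co_M A κ (m + 1)) (fun w hw => hI1 w hw) (fun w hw => hI2 w hw) ?_
    intro w hw hl huni
    obtain ⟨D, c, hD, hc, hD0, hc0, h1, h2⟩ := fr_val hq 𝔟 𝔪 hm2 t ht β' β b' b hβ' hβ bb hbb
      hbb' w (fun i => hS1 _ (hw i)) huni
    obtain ⟨zz, hzz⟩ := co3_zz hn w hl
    rw [co_memM, hI3 w hw hl D c hD0 hc0 h1 h2 zz hzz]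
    exact fr_mem hq A hA hU 𝔟 𝔪 hb2 t β' β b' b hβ' σ w (fun i => hS1 _ (hw i)) D c hD hc zz κ hE
  have hg2M : g₂ 1 ∈ co_M A κ (m + 1) := by
    have hint : ∀ (z : ℤ) (x : ℂ), x ∈ co_M A κ (m + 1) → (z : ℂ) * x ∈ co_M A κ (m + 1) := by
      intro z x hx
      have h := (co_M A κ (m + 1)).zsmul_mem hx z
      rwa [zsmul_eq_mul] at h
    rw [hval]
    refine hint _ _ (AddSubgroup.sum_mem _ fun s _ => ?_)
    exact hint _ _ (hpathM s)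
  -- the functional equation of the smoothing
  obtain ⟨h0cls, hVcls⟩ := co_cls 𝔟 𝔪 t ht ht'
  obtain ⟨X, hX⟩ := co_exists 𝔪 (cls 𝔟 𝔪 t) h0cls hVcls
  have hX' : IsRepsU 𝔪 (Function.support (del 𝔟 𝔪 t β' β b)) (X \ mulI 𝔟 β') := by
    rw [co_sup hq1 𝔟 𝔪 t β' f hf (⟨R₀ * N * N', by ring⟩) hβ]
    refine ⟨fun z hz => ⟨hX.1 hz.1, hz.2⟩, ?_⟩
    rintro z ⟨hz1, hz2⟩
    obtain ⟨v, ⟨hv1, hv2⟩, hv3⟩ := hX.2 z hz1
    refine ⟨v, ⟨hv1, hv2, ?_⟩, ?_⟩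
    · rw [co_mulI]
      exact hz2
    · rintro y ⟨hy1, hy2, -⟩
      exact hv3 y ⟨hy1, hy2⟩
  have hX'' : IsReps ε' (Function.support (del 𝔟 𝔪 t β' β b)) (X \ mulI 𝔟 β') :=
    (co_reps 𝔪 ε hε hεb _ _).1 hX'
  have heq : ∀ s : ℂ, 2 < s.re → g₂ s = g s * facQ b s * facP b' s := by
    intro s hs
    have h1 := hg₂s _ hX'' s hs
    have h2 := co_smooth hq1 𝔟 𝔪 t ht ht' hu hR hR' hβ hβ' hcop X hX s (g s) (hgs X hX s hs)
    have h3' : ∀ Y : Set F, ∀ a : ℂ, HasSum (fun z : Y => del 𝔟 𝔪 t β' β b z * term s (z : F)) a ↔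
        HasSum (Y.indicator fun z : F => del 𝔟 𝔪 t β' β b z * term s z) a := fun Y a =>
      hasSum_subtype_iff_indicator (f := fun z : F => del 𝔟 𝔪 t β' β b z * term s z)
    have h4 : HasSum (fun z : (X \ mulI 𝔟 β' : Set F) => del 𝔟 𝔪 t β' β b z * term s (z : F))
        (g₂ s) := by
      have h5 : (fun z : (X \ mulI 𝔟 β' : Set F) => del 𝔟 𝔪 t β' β b z * term s (z : F))
          = fun z : (X \ mulI 𝔟 β' : Set F) => del 𝔟 𝔪 t β' β b z *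
            (starRingEnd ℂ) (NF (z : F)) * (‖NF (z : F)‖ : ℂ) ^ (-2 * s) := by
        funext z
        rw [term, mul_assoc]
      rw [h5]
      exact h1
    have h5 := (h3' _ _).1 h4
    have h6 := (h3' _ _).1 h2
    have h7 : (X \ mulI 𝔟 β').indicator (fun z : F => del 𝔟 𝔪 t β' β b z * term s z)
        = X.indicator (fun z : F => del 𝔟 𝔪 t β' β b z * term s z) := by
      funext z
      by_cases hz : z ∈ X
      · by_cases hz2 : z ∈ mulI 𝔟 β'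
        · have hd : del 𝔟 𝔪 t β' β b z = 0 := by
            unfold del
            rw [if_neg]
            exact fun h => h.2 hz2
          rw [Set.indicator_of_notMem (fun h => h.2 hz2), Set.indicator_of_mem hz, hd, zero_mul]
        · rw [Set.indicator_of_mem (show z ∈ X \ mulI 𝔟 β' from ⟨hz, hz2⟩),
            Set.indicator_of_mem hz]
      · rw [Set.indicator_of_notMem (fun h => hz h.1), Set.indicator_of_notMem hz]
    rw [h7] at h5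
    exact h5.unique h6
  -- identity theorem
  obtain ⟨hQ1, hQ2, hP1, hP2⟩ := co3_fac A hA b b' hβ.c0 hβ.c1 hβ'.c0 hβ'.c1
  have hid : g₂ = fun s => g s * facQ b s * facP b' s := by
    have hd2 : Differentiable ℂ (fun s => g s * facQ b s * facP b' s) :=
      (hg.mul (facQ_diff b (kq_ne hq1 hβ.c0))).mul (facP_diff b' (kq_ne hq1 hβ'.c0))
    have ha1 : AnalyticOnNhd ℂ g₂ Set.univ := fun z _ => hg₂.analyticAt z
    have ha2 : AnalyticOnNhd ℂ (fun s => g s * facQ b s * facP b' s) Set.univ :=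
      fun z _ => hd2.analyticAt z
    refine ha1.eq_of_eventuallyEq ha2 (z₀ := 3) ?_
    have hopen : IsOpen {s : ℂ | 2 < s.re} := isOpen_lt continuous_const Complex.continuous_re
    filter_upwards [hopen.mem_nhds (show (3 : ℂ) ∈ {s : ℂ | 2 < s.re} by
      show (2 : ℝ) < (3 : ℂ).re
      norm_num)] with s hs
    exact heq s hs
  have h1 : g₂ 1 = g 1 * facQ b 1 * facP b' 1 := congrFun hid 1
  have h2 : g 1 / κ ^ (m + 1) = g₂ 1 / κ ^ (m + 1) * (facQ b 1)⁻¹ * (facP b' 1)⁻¹ := by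
    rw [h1, div_eq_mul_inv, div_eq_mul_inv]
    generalize (κ ^ (m + 1))⁻¹ = y
    field_simp
  rw [h2]
  exact mul_mem (mul_mem ((co_memM A κ (m + 1) _).1 hg2M) hQ2) hP2

end Pool.Agent.Lib.MP_1a91b9_ntT.Ell
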