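import Pool.Agent.Lib.MP_1a91b9_ntT.S6.Defs
import Pool.Agent.Lib.MP_1a91b9_ntT.D3.Main

/-!
# D6 definitions: the partial `L`-series at a prime number `q`

The definitions `DL`, `Gen`, `cls`, `mulI`, `del`, `del1`, `IsRepsU`, `term` of `S6.Defs` do not
depend on the prime and are used unchanged. `UQ`, `Smooth`, `Unimod` replace `U2`, `Smooth`,
`Unimod`.
-/

set_option autoImplicit false

namespace Pool.Agent.Lib.MP_1a91b9_ntT.Ell

open NumberField

universe u

/-- Away from `q` the dual of the ring of integers for the relative trace is integral. -/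
def UQ (q : ℕ) (F : Type u) [Field F] [NumberField F] [Algebra K F] : Prop :=
  ∃ d : ℕ, d.Coprime q ∧
    ∀ v : F, (∀ z : 𝓞 F, ∃ a : 𝓞 K, Algebra.trace K F (v * (z : F)) = a) →
      IsIntegral ℤ ((d : F) * v)

variable {F : Type u} [Field F] [NumberField F] [Algebra K F]

/-- The smoothing elements; `b` is the relative norm of `β`. -/
structure Smooth (q R : ℕ) (β : 𝓞 F) (b : 𝓞 K) : Prop where
  one : (R : 𝓞 F) ∣ β - 1
  nrm : Algebra.norm K (β : F) = b
  gen : ∀ z : 𝓞 F, ∃ (a : 𝓞 K) (w : 𝓞 F), z = algebraMap (𝓞 K) (𝓞 F) a + β * w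
  c0 : IsCoprime b (q : 𝓞 K)
  c1 : IsCoprime (b - 1) (q : 𝓞 K)

/-- Unimodular at `q` with respect to a basis. -/
def Unimod (q : ℕ) {ι : Type} [Fintype ι] [DecidableEq ι] (bb : Module.Basis ι K F)
    (v : ι → F) : Prop :=
  ∃ (k : ℕ) (u : 𝓞 K), k.Coprime q ∧ IsCoprime u (q : 𝓞 K) ∧ (k : K) * bb.det v = u

end Pool.Agent.Lib.MP_1a91b9_ntT.Ell
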