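import Pool.Agent.Lib.MP_1a91b9_ntT.D6.KQ
import Pool.Agent.Lib.MP_1a91b9_ntT.S6.De1

/-!
# D6, file Du: the dual lattice at a prime number `q`
-/

set_option autoImplicit false

namespace Pool.Agent.Lib.MP_1a91b9_ntT.Ell

open NumberField

universe u

variable {F : Type u} [Field F] [NumberField F] [Algebra K F] {q : ℕ}

omit [Algebra K F] in
/-- The absolute norm of an ideal coprime to `q`. -/
theorem absNorm_cop (hq : q.Prime) (𝔟 : Ideal (𝓞 F))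
    (h2 : IsCoprime 𝔟 (Ideal.span {(q : 𝓞 F)})) : (Ideal.absNorm 𝔟).Coprime q := by
  rw [Nat.coprime_comm, Nat.Prime.coprime_iff_not_dvd hq]
  intro hev
  have hp : Prime (q : ℤ) := Nat.prime_iff_prime_int.1 hq
  have hdvd : (q : ℤ) ∣ ((Ideal.absNorm 𝔟 : ℕ) : ℤ) := by exact_mod_cast hev
  obtain ⟨P, hP, hPu, hPb⟩ := Ideal.exists_isMaximal_dvd_of_dvd_absNorm hp 𝔟 hdvd
  have h1 : 𝔟 ≤ P := Ideal.dvd_iff_le.1 hPb
  have h3 : (q : ℤ) ∈ Ideal.under ℤ P := by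
    rw [hPu]
    exact Ideal.mem_span_singleton_self _
  have h4 : (q : 𝓞 F) ∈ P := by
    have h5 : algebraMap ℤ (𝓞 F) q ∈ P := h3
    simpa using h5
  have h6 : Ideal.span {(q : 𝓞 F)} ≤ P := by
    rw [Ideal.span_singleton_le_iff_mem]
    exact h4
  have h7 : 𝔟 ⊔ Ideal.span {(q : 𝓞 F)} = ⊤ := Ideal.isCoprime_iff_sup_eq.1 h2
  exact hP.ne_top (top_le_iff.1 (h7 ▸ sup_le h1 h6))

omit [Algebra K F] in
/-- The absolute norm of an element coprime to `q`. -/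
theorem absNorm_cop' (hq : q.Prime) (β : 𝓞 F) (h : IsCoprime β (q : 𝓞 F)) :
    (Ideal.absNorm (Ideal.span {β})).Coprime q := by
  refine absNorm_cop hq _ ?_
  rw [Ideal.isCoprime_span_singleton_iff]
  exact h

theorem dl_int (hq : q.Prime) (𝔟 : Ideal (𝓞 F)) (h2 : IsCoprime 𝔟 (Ideal.span {(q : 𝓞 F)}))
    (hU : UQ q F) : ∃ d : ℕ, d.Coprime q ∧ ∀ v ∈ DL 𝔟, IsIntegral ℤ ((d : F) * v) := by
  obtain ⟨d, hd, h⟩ := hU
  refine ⟨d * Ideal.absNorm 𝔟, Nat.Coprime.mul_left hd (absNorm_cop hq 𝔟 h2), fun v hv => ?_⟩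
  have h1 := h ((Ideal.absNorm 𝔟 : F) * v) (by
    intro z
    obtain ⟨a, ha⟩ := hv ((Ideal.absNorm 𝔟 : 𝓞 F) * z) (𝔟.mul_mem_right z (Ideal.absNorm_mem 𝔟))
    refine ⟨a, ?_⟩
    rw [← ha]
    congr 1
    have e1 : (((Ideal.absNorm 𝔟 : 𝓞 F) * z : 𝓞 F) : F) = ((Ideal.absNorm 𝔟 : 𝓞 F) : F) * (z : F) :=
      rfl
    have e2 : ((Ideal.absNorm 𝔟 : 𝓞 F) : F) = (Ideal.absNorm 𝔟 : F) :=
      map_natCast (algebraMap (𝓞 F) F) _
    rw [e1, e2]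
    ring)
  have h3 : ((d * Ideal.absNorm 𝔟 : ℕ) : F) * v = (d : F) * ((Ideal.absNorm 𝔟 : F) * v) := by
    push_cast
    ring
  rw [h3]
  exact h1

theorem smooth_ne (hq : q ≠ 1) {R : ℕ} {β : 𝓞 F} {b : 𝓞 K} (h : Smooth q R β b) : β ≠ 0 := by
  intro h0
  have h1 := h.nrm
  have h2 : ((0 : 𝓞 F) : F) = 0 := rfl
  rw [h0, h2, Algebra.norm_zero] at h1
  have h3 : b = 0 := RingOfIntegers.coe_injective (h1.symm.trans (map_zero (algebraMap (𝓞 K) K)).symm)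
  exact kq_ne hq h.c0 h3

theorem gen_exists (hq : q ≠ 1) (𝔟 : Ideal (𝓞 F)) (hb : 𝔟 ≠ ⊥) {R : ℕ} {β : 𝓞 F} {b : 𝓞 K}
    (h : Smooth q R β b) : ∃ v₀ : F, Gen 𝔟 β v₀ := by
  have hβ := smooth_ne hq h
  have hβF : (β : F) ≠ 0 := fun h0 =>
    hβ (RingOfIntegers.coe_injective (h0.trans (map_zero (algebraMap (𝓞 F) F)).symm))
  obtain ⟨u, hu, hg⟩ := dl_gen 𝔟 hb β hβ
  have e : (β : F) * (u / β) = u := mul_div_cancel₀ u hβF
  refine ⟨u / β, ?_, fun w hw => ?_⟩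
  · rw [e]
    exact hu
  · rw [e]
    obtain ⟨z, v', hv', hz⟩ := hg w hw
    obtain ⟨a, w1, hw1⟩ := h.gen z
    refine ⟨a, (w1 : F) * u + v', dl_add 𝔟 (dl_smul 𝔟 w1 hu) hv', ?_⟩
    have h1 : (z : F) = algebraMap K F (a : K) + (β : F) * (w1 : F) := by
      have := congrArg (algebraMap (𝓞 F) F) hw1
      rw [map_add, map_mul] at this
      exact this
    rw [hz, h1]
    ring

/-- `β` is coprime to `N`. -/
theorem de_cop (hq : q.Prime) {R : ℕ} {β : 𝓞 F} {b : 𝓞 K} (h : Smooth q R β b) (N : ℕ)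
    (hN : 0 < N) (hR : ∀ t : ℕ, t.Coprime q → t ∣ N → t ∣ R) : IsCoprime β (N : 𝓞 F) := by
  obtain ⟨c, k, hk, hbc, _⟩ := kq_odd b h.c0
  have h1 : β ∣ (k : 𝓞 F) := by
    have h2 := nf_dvd β b h.nrm
    have h3 : algebraMap (𝓞 K) (𝓞 F) b ∣ (k : 𝓞 F) := by
      refine ⟨algebraMap (𝓞 K) (𝓞 F) c, ?_⟩
      rw [← map_mul, hbc, map_natCast]
    exact h2.trans h3
  have h4 : IsCoprime (k : 𝓞 F) (q : 𝓞 F) := kq_natF hk
  have h5 : IsCoprime β (q : 𝓞 F) := h4.of_isCoprime_of_dvd_left h1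
  obtain ⟨j, t, ht, hNt⟩ := Nat.exists_eq_pow_mul_and_not_dvd hN.ne' q hq.one_lt.ne'
  have htq : t.Coprime q := ((Nat.Prime.coprime_iff_not_dvd hq).2 ht).symm
  have h6 : t ∣ R := hR t htq (by rw [hNt]; exact Dvd.intro_left _ rfl)
  have h7 : IsCoprime β (t : 𝓞 F) := by
    have h8 : (t : 𝓞 F) ∣ β - 1 := (Nat.cast_dvd_cast h6).trans h.one
    obtain ⟨x, hx⟩ := h8
    refine ⟨1, -x, ?_⟩
    linear_combination hx
  rw [hNt]
  push_cast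
  exact (h5.pow_right).mul_right h7

theorem de_copq {R : ℕ} {β : 𝓞 F} {b : 𝓞 K} (h : Smooth q R β b) : IsCoprime β (q : 𝓞 F) := by
  obtain ⟨c, k, hk, hbc, _⟩ := kq_odd b h.c0
  have h1 : β ∣ (k : 𝓞 F) := by
    have h2 := nf_dvd β b h.nrm
    have h3 : algebraMap (𝓞 K) (𝓞 F) b ∣ (k : 𝓞 F) := by
      refine ⟨algebraMap (𝓞 K) (𝓞 F) c, ?_⟩
      rw [← map_mul, hbc, map_natCast]
    exact h2.trans h3
  have h4 : IsCoprime (k : 𝓞 F) (q : 𝓞 F) := kq_natF hk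
  exact h4.of_isCoprime_of_dvd_left h1

theorem de_surj (hq : q.Prime) (𝔟 : Ideal (𝓞 F)) {R : ℕ} {β : 𝓞 F} {b : 𝓞 K}
    (h : Smooth q R β b) (α : 𝓞 F) (hα : α ∈ 𝔟) (hα0 : α ≠ 0)
    (hR : ∀ t : ℕ, t.Coprime q → t ∣ Ideal.absNorm (Ideal.span {α}) → t ∣ R) (z : 𝓞 F)
    (hz : z ∈ 𝔟) :
    ∃ a : 𝓞 K, ((z - algebraMap (𝓞 K) (𝓞 F) a * α : 𝓞 F) : F) ∈ mulI 𝔟 β := by
  have hN : 0 < Ideal.absNorm (Ideal.span {α}) := by
    rw [Nat.pos_iff_ne_zero, Ne, Ideal.absNorm_eq_zero_iff, Ideal.span_singleton_eq_bot]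
    exact hα0
  obtain ⟨x, y, hxy⟩ := de_cop hq h _ hN hR
  obtain ⟨w₁, hw₁⟩ := Ideal.mem_span_singleton.1 (Ideal.absNorm_mem (Ideal.span {α}))
  obtain ⟨a, w', hw'⟩ := h.gen (y * w₁ * z)
  refine ⟨a, de1_mem.2 ⟨x * z + w' * α, ?_, ?_⟩⟩
  · exact 𝔟.add_mem (Ideal.mul_mem_left _ x hz) (Ideal.mul_mem_left _ w' hα)
  · rw [hw₁] at hxy
    linear_combination (-z) * hxy + α * hw'

theorem de1_key (hq : q ≠ 1) {R : ℕ} {β : 𝓞 F} {b : 𝓞 K} (h : Smooth q R β b) (t : 𝓞 K)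
    (ht : β ∣ algebraMap (𝓞 K) (𝓞 F) t) : b ∣ t := by
  have hβ : β ≠ 0 := smooth_ne hq h
  have hb : b ≠ 0 := kq_ne hq h.c0
  set J : Ideal (𝓞 K) := (Ideal.span {β}).comap (algebraMap (𝓞 K) (𝓞 F)) with hJ
  have hbJ : Ideal.span {b} ≤ J := by
    rw [Ideal.span_singleton_le_iff_mem, hJ, Ideal.mem_comap, Ideal.mem_span_singleton]
    exact nf_dvd β b h.nrm
  have hcard : Ideal.absNorm J = Ideal.absNorm (Ideal.span {β}) := by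
    rw [Ideal.absNorm_apply, Ideal.absNorm_apply, Submodule.cardQuot_apply, Submodule.cardQuot_apply]
    refine Nat.card_congr (Equiv.ofBijective
      (Ideal.quotientMap (Ideal.span {β}) (algebraMap (𝓞 K) (𝓞 F)) (le_refl J)) ⟨?_, ?_⟩)
    · exact Ideal.quotientMap_injective
    · intro x
      obtain ⟨z, rfl⟩ := Ideal.Quotient.mk_surjective x
      obtain ⟨a, w, hw⟩ := h.gen z
      refine ⟨Ideal.Quotient.mk J a, ?_⟩
      rw [Ideal.quotientMap_mk, Ideal.Quotient.eq, Ideal.mem_span_singleton]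
      exact ⟨-w, by rw [hw]; ring⟩
  have hnat : Ideal.absNorm (Ideal.span {b}) = Ideal.absNorm J := by
    have h1 : ((Ideal.absNorm (Ideal.span {b}) : ℕ) : ℝ) = ((Ideal.absNorm J : ℕ) : ℝ) := by
      rw [de1_absK, hcard, ← nf_abs, NF, h.nrm]
    exact_mod_cast h1
  obtain ⟨I, hI⟩ := Ideal.dvd_iff_le.2 hbJ
  have hI1 : Ideal.absNorm I = 1 := by
    rw [hI, map_mul] at hnat
    have hJ0 : Ideal.absNorm J ≠ 0 := by
      rw [hcard, Ne, Ideal.absNorm_eq_zero_iff, Ideal.span_singleton_eq_bot]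
      exact hβ
    have h2 : Ideal.absNorm J * Ideal.absNorm I = Ideal.absNorm J * 1 := by rw [hnat, mul_one]
    exact Nat.eq_of_mul_eq_mul_left (Nat.pos_of_ne_zero hJ0) h2
  rw [Ideal.absNorm_eq_one_iff] at hI1
  rw [hI1, Ideal.mul_top] at hI
  rw [← Ideal.mem_span_singleton, hI, hJ, Ideal.mem_comap, Ideal.mem_span_singleton]
  exact ht

theorem de_iff (hq : q.Prime) (𝔟 : Ideal (𝓞 F)) {R : ℕ} {β : 𝓞 F} {b : 𝓞 K}
    (h : Smooth q R β b) (α : 𝓞 F) (hα : α ∈ 𝔟) (hα0 : α ≠ 0)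
    (hR : ∀ t : ℕ, t.Coprime q → t ∣ Ideal.absNorm (Ideal.span {α}) → t ∣ R) (z : 𝓞 F)
    (hz : z ∈ 𝔟) :
    ∃ x : 𝓞 K, ∀ y : 𝓞 K,
      ((z + algebraMap (𝓞 K) (𝓞 F) y * α : 𝓞 F) : F) ∈ mulI 𝔟 β ↔ b ∣ y - x := by
  have hN : 0 < Ideal.absNorm (Ideal.span {α}) := by
    rw [Nat.pos_iff_ne_zero, Ne, Ideal.absNorm_eq_zero_iff, Ideal.span_singleton_eq_bot]
    exact hα0
  have hcop := de_cop hq h _ hN hR
  obtain ⟨w₁, hw₁⟩ := Ideal.mem_span_singleton.1 (Ideal.absNorm_mem (Ideal.span {α}))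
  obtain ⟨x, hx⟩ := de_surj hq 𝔟 h α hα hα0 hR (-z) (𝔟.neg_mem hz)
  obtain ⟨w, hw, hwe⟩ := de1_mem.1 hx
  refine ⟨x, fun y => ?_⟩
  rw [de1_mem]
  constructor
  · rintro ⟨v, hv, hve⟩
    refine de1_key hq.one_lt.ne' h (y - x) ?_
    have h1 : algebraMap (𝓞 K) (𝓞 F) (y - x) * α = β * (v + w) := by
      rw [map_sub]
      linear_combination hve + hwe
    have h2 : β ∣ algebraMap (𝓞 K) (𝓞 F) (y - x) * (Ideal.absNorm (Ideal.span {α}) : 𝓞 F) := by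
      rw [hw₁, ← mul_assoc, h1]
      exact ⟨(v + w) * w₁, by ring⟩
    exact hcop.dvd_of_dvd_mul_right h2
  · rintro ⟨t, ht⟩
    obtain ⟨β', hβ'⟩ := nf_dvd β b h.nrm
    have h1 : algebraMap (𝓞 K) (𝓞 F) y = algebraMap (𝓞 K) (𝓞 F) x + β * β' * algebraMap (𝓞 K) (𝓞 F) t := by
      rw [← hβ', ← map_mul, ← ht, map_sub]
      ring
    refine ⟨-w + β' * algebraMap (𝓞 K) (𝓞 F) t * α, ?_, ?_⟩
    · exact 𝔟.add_mem (𝔟.neg_mem hw) (Ideal.mul_mem_left _ _ hα)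
    · rw [h1]
      linear_combination -hwe

end Pool.Agent.Lib.MP_1a91b9_ntT.Ell
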